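import Mathlib

/-! Solving `P u + lam u = f` from approximate solutions in all graph norms. -/

open scoped Topology InnerProductSpace
open Filter Set

namespace Pool.Agent.Lib.MP_94aef8_gt.D

variable {V : Type} [NormedAddCommGroup V] [InnerProductSpace ℝ V]

/-- The square of the graph norm of order `m`. -/
noncomputable def Nm (P : V →ₗ[ℝ] V) (m : ℕ) (u : V) : ℝ :=
  ∑ i ∈ Finset.range (m + 1), ‖(P ^ i) u‖ ^ 2

/-- The graph norm of order `m`, as a sum of norms. -/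
noncomputable def nm (P : V →ₗ[ℝ] V) (m : ℕ) (u : V) : ℝ :=
  ∑ i ∈ Finset.range (m + 1), ‖(P ^ i) u‖

/-- Completeness for the family of all graph norms. -/
def Compl (P : V →ₗ[ℝ] V) : Prop :=
  ∀ u : ℕ → V, (∀ i, CauchySeq fun n => (P ^ i) (u n)) →
    ∃ v, ∀ i, Tendsto (fun n => (P ^ i) (u n)) atTop (𝓝 ((P ^ i) v))

/-- Existence of parametrices for large `μ`. -/
def Prm (P : V →ₗ[ℝ] V) : Prop :=
  ∀ (m : ℕ) (θ : ℝ), 0 < θ → ∃ μ0 : ℝ, ∀ μ, μ0 ≤ μ → ∀ (f : V) (ε : ℝ), 0 < ε →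
    ∃ u, Nm P m (P u + μ • u - f) ≤ θ * Nm P m f + ε

variable {P : V →ₗ[ℝ] V}

theorem Nm_nonneg (P : V →ₗ[ℝ] V) (m : ℕ) (u : V) : 0 ≤ Nm P m u :=
  Finset.sum_nonneg fun _ _ => sq_nonneg _

theorem nm_nonneg (P : V →ₗ[ℝ] V) (m : ℕ) (u : V) : 0 ≤ nm P m u :=
  Finset.sum_nonneg fun _ _ => norm_nonneg _

theorem sq_le_Nm (P : V →ₗ[ℝ] V) {i m : ℕ} (h : i ≤ m) (u : V) : ‖(P ^ i) u‖ ^ 2 ≤ Nm P m u :=
  Finset.single_le_sum (f := fun i => ‖(P ^ i) u‖ ^ 2) (fun _ _ => sq_nonneg _)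
    (Finset.mem_range.2 (Nat.lt_succ_of_le h))

theorem norm_le_nm (P : V →ₗ[ℝ] V) {i m : ℕ} (h : i ≤ m) (u : V) : ‖(P ^ i) u‖ ≤ nm P m u :=
  Finset.single_le_sum (f := fun i => ‖(P ^ i) u‖) (fun _ _ => norm_nonneg _)
    (Finset.mem_range.2 (Nat.lt_succ_of_le h))

theorem nm_add (P : V →ₗ[ℝ] V) (m : ℕ) (u v : V) : nm P m (u + v) ≤ nm P m u + nm P m v := by
  rw [nm, nm, nm, ← Finset.sum_add_distrib]
  exact Finset.sum_le_sum fun i _ => by rw [map_add]; exact norm_add_le _ _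

theorem nm_smul (P : V →ₗ[ℝ] V) (m : ℕ) (c : ℝ) (u : V) : nm P m (c • u) = |c| * nm P m u := by
  rw [nm, nm, Finset.mul_sum]
  exact Finset.sum_congr rfl fun i _ => by rw [map_smul, norm_smul, Real.norm_eq_abs]

theorem Nm_le_sq (P : V →ₗ[ℝ] V) (m : ℕ) (u : V) : Nm P m u ≤ nm P m u ^ 2 :=
  Finset.sum_sq_le_sq_sum_of_nonneg fun _ _ => norm_nonneg _

theorem sq_nm_le (P : V →ₗ[ℝ] V) (m : ℕ) (u : V) : nm P m u ^ 2 ≤ (m + 1) * Nm P m u := by
  have h := sq_sum_le_card_mul_sum_sq (s := Finset.range (m + 1)) (f := fun i => ‖(P ^ i) u‖)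
  rwa [Finset.card_range, Nat.cast_add, Nat.cast_one] at h

theorem Nm_sum {ι : Type} (P : V →ₗ[ℝ] V) (m : ℕ) (s : Finset ι) (u : ι → V) :
    Nm P m (∑ a ∈ s, u a) ≤ s.card * ∑ a ∈ s, Nm P m (u a) := by
  simp only [Nm]
  rw [Finset.sum_comm, Finset.mul_sum]
  refine Finset.sum_le_sum fun i _ => le_trans ?_
    (sq_sum_le_card_mul_sum_sq (s := s) (f := fun a => ‖(P ^ i) (u a)‖))
  rw [map_sum]
  exact pow_le_pow_left₀ (norm_nonneg _) (norm_sum_le _ _) 2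

theorem tendsto_Nm {u : ℕ → V} (m : ℕ) (h : ∀ i, Tendsto (fun n => (P ^ i) (u n)) atTop (𝓝 0)) :
    Tendsto (fun n => Nm P m (u n)) atTop (𝓝 0) := by
  have h1 := tendsto_finsetSum (Finset.range (m + 1)) fun i _ => (h i).norm.pow 2
  simpa [Nm] using h1

/-- Iterate: if `ν (A u - f) ≤ δ`, apply the hypothesis to `f - A u`. -/
theorem dense_of_contr (A : V →ₗ[ℝ] V) {ν : V → ℝ} (h0 : ∀ u, 0 ≤ ν u) (hn : ∀ u, ν (-u) = ν u)
    {θ : ℝ} (hθ0 : 0 ≤ θ) (hθ : θ < 1)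
    (h : ∀ f ε, 0 < ε → ∃ u, ν (A u - f) ≤ θ * ν f + ε) (f : V) {ε : ℝ} (hε : 0 < ε) :
    ∃ u, ν (A u - f) ≤ ε := by
  have key : ∀ n : ℕ, ∀ ε, 0 < ε → ∃ u, ν (A u - f) ≤ θ ^ n * ν f + ε := fun n => by
    induction n with
    | zero => exact fun ε hε => ⟨0, by rw [map_zero, zero_sub, hn]; linarith⟩
    | succ n ih =>
      intro ε hε
      obtain ⟨u, hu⟩ := ih (ε / 2) (half_pos hε)
      obtain ⟨v, hv⟩ := h (f - A u) (ε / 2) (half_pos hε)
      refine ⟨u + v, ?_⟩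
      rw [← neg_sub (A u) f, hn] at hv
      have e : A (u + v) - f = A v - -(A u - f) := by rw [map_add]; abel
      rw [e, pow_succ]
      nlinarith [mul_le_mul_of_nonneg_left hu hθ0]
  have h1 : Tendsto (fun n : ℕ => θ ^ n * ν f) atTop (𝓝 0) := by
    simpa using (tendsto_pow_atTop_nhds_zero_of_lt_one hθ0 hθ).mul_const (ν f)
  obtain ⟨n, hn'⟩ := (h1.eventually (gt_mem_nhds (half_pos hε))).exists
  obtain ⟨u, hu⟩ := key n (ε / 2) (half_pos hε)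
  exact ⟨u, by linarith⟩

theorem low_norm {c : ℝ} (low : ∀ u, -c * ‖u‖ ^ 2 ≤ ⟪P u, u⟫_ℝ) (μ : ℝ) (u : V) :
    (μ - c) * ‖u‖ ≤ ‖P u + μ • u‖ := by
  rcases (norm_nonneg u).eq_or_lt with h | h
  · rw [← h, mul_zero]
    exact norm_nonneg _
  · refine le_of_mul_le_mul_right ?_ h
    have h1 := real_inner_le_norm (P u + μ • u) u
    rw [inner_add_left, real_inner_smul_left, real_inner_self_eq_norm_sq] at h1
    nlinarith [low u]

theorem abs1_comm (P : V →ₗ[ℝ] V) (i : ℕ) (μ : ℝ) (u : V) :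
    (P ^ i) (P u + μ • u) = P ((P ^ i) u) + μ • (P ^ i) u := by
  rw [map_add, map_smul, ← Module.End.mul_apply, ← pow_succ, pow_succ', Module.End.mul_apply]

/-- `low_norm` for `(P ^ i) u`; `P ^ i` commutes with `P`. -/
theorem low_nm {c : ℝ} (low : ∀ u, -c * ‖u‖ ^ 2 ≤ ⟪P u, u⟫_ℝ) (μ : ℝ) (m : ℕ) (u : V) :
    (μ - c) * nm P m u ≤ nm P m (P u + μ • u) := by
  rw [nm, nm, Finset.mul_sum]
  exact Finset.sum_le_sum fun i _ => by rw [abs1_comm]; exact low_norm low μ _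

theorem abs1_dense (P : V →ₗ[ℝ] V) (m : ℕ) (μ : ℝ) {θ : ℝ} (hθ0 : 0 ≤ θ) (hθ : θ < 1)
    (h : ∀ f ε, 0 < ε → ∃ u, nm P m (P u + μ • u - f) ≤ θ * nm P m f + ε) (f : V) {ε : ℝ}
    (hε : 0 < ε) : ∃ u, nm P m (P u + μ • u - f) ≤ ε :=
  dense_of_contr (ν := nm P m) (P + μ • LinearMap.id) (nm_nonneg P m)
    (fun u => by simp only [nm, map_neg, norm_neg]) hθ0 hθ (by simpa using h) f hε |>.imp
    fun u hu => by simpa using hu

/-- Take `θ = 1 / (4 (m + 1))` and `μ = max μ0 lam`. By `sq_nm_le`, `Nm_le_sq` and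
`dense_of_contr` the range of `P + μ` is dense for `nm P m`. If `nm (P u + μ u - f) ≤ δ`, then
`(μ - c) nm u ≤ nm f + δ` and `P u + lam u - f = (P u + μ u - f) - (μ - lam) u`; since
`(μ - lam) / (μ - c) < 1`, `dense_of_contr` applies again. -/
theorem dense_lam {c : ℝ} (low : ∀ u, -c * ‖u‖ ^ 2 ≤ ⟪P u, u⟫_ℝ) (hp : Prm P) {lam : ℝ}
    (hl : c + 1 ≤ lam) (m : ℕ) (f : V) {ε : ℝ} (hε : 0 < ε) :
    ∃ u, nm P m (P u + lam • u - f) ≤ ε := by
  have hm : (0 : ℝ) < m + 1 := by positivity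
  obtain ⟨μ0, h0⟩ := hp m (1 / (4 * (m + 1))) (by positivity)
  obtain ⟨μ, h1, h2⟩ : ∃ μ, μ0 ≤ μ ∧ lam ≤ μ := ⟨max μ0 lam, le_max_left _ _, le_max_right _ _⟩
  have d1 := @abs1_dense V _ _ P m μ (1 / 2) (by norm_num) (by norm_num) fun g δ hδ => by
    obtain ⟨u, hu⟩ := h0 μ h1 g (δ ^ 2 / (m + 1)) (by positivity)
    refine ⟨u, le_of_sq_le_sq ?_ (by have := nm_nonneg P m g; positivity)⟩
    have h3 := mul_le_mul_of_nonneg_left hu hm.le
    have h4 : (m + 1 : ℝ) * (1 / (4 * (m + 1)) * Nm P m g + δ ^ 2 / (m + 1)) =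
        1 / 4 * Nm P m g + δ ^ 2 := by field_simp
    nlinarith [sq_nm_le P m (P u + μ • u - g), Nm_le_sq P m g, mul_nonneg (nm_nonneg P m g) hδ.le]
  have hc : 0 < μ - c := by linarith
  have hθ0 : 0 ≤ (μ - lam) / (μ - c) := div_nonneg (by linarith) hc.le
  have hθ : (μ - lam) / (μ - c) < 1 := (div_lt_one hc).2 (by linarith)
  refine abs1_dense P m lam hθ0 hθ (fun g δ hδ => ?_) f hε
  obtain ⟨u, hu⟩ := d1 g (half_pos hδ)
  refine ⟨u, ?_⟩
  have h3 := nm_add P m (P u + μ • u - g) g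
  rw [sub_add_cancel] at h3
  have h4 := nm_add P m (P u + μ • u - g) ((lam - μ) • u)
  have e : P u + μ • u - g + (lam - μ) • u = P u + lam • u - g := by rw [sub_smul]; abel
  rw [e, nm_smul, abs_sub_comm, abs_of_nonneg (by linarith)] at h4
  have h5 : (μ - lam) * nm P m u = (μ - lam) / (μ - c) * ((μ - c) * nm P m u) := by field_simp
  have h6 := mul_le_mul_of_nonneg_left
    (show (μ - c) * nm P m u ≤ nm P m g + δ / 2 by linarith [low_nm low μ m u]) hθ0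
  nlinarith

/-- Choose `u n` with `nm P n (P (u n) + lam • u n - f) ≤ 1 / (n + 1)`; `(P ^ i) (u n)` is a Cauchy
sequence by `low_norm`. -/
theorem abs_onto {c : ℝ} (low : ∀ u, -c * ‖u‖ ^ 2 ≤ ⟪P u, u⟫_ℝ) (hc : Compl P) (hp : Prm P)
    {lam : ℝ} (hl : c + 1 ≤ lam) (f : V) : ∃ u, P u + lam • u = f := by
  choose u hu using fun n : ℕ => dense_lam low hp hl n f (Nat.one_div_pos_of_nat (α := ℝ) (n := n))
  have h1 : ∀ i, Tendsto (fun n => (P ^ i) (P (u n) + lam • u n)) atTop (𝓝 ((P ^ i) f)) :=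
    fun i => by
      rw [tendsto_iff_norm_sub_tendsto_zero]
      refine squeeze_zero' (Eventually.of_forall fun _ => norm_nonneg _) ?_
        tendsto_one_div_add_atTop_nhds_zero_nat
      filter_upwards [eventually_ge_atTop i] with n hn
      rw [← map_sub]
      exact (norm_le_nm P hn _).trans (hu n)
  obtain ⟨v, hv⟩ := hc u fun i => by
    have h2 := (h1 i).cauchySeq
    rw [Metric.cauchySeq_iff] at h2 ⊢
    intro ε hε
    obtain ⟨N, hN⟩ := h2 ε hε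
    refine ⟨N, fun a ha b hb => lt_of_le_of_lt ?_ (hN a ha b hb)⟩
    have h3 := low_norm low lam ((P ^ i) (u a) - (P ^ i) (u b))
    have e : (P ^ i) (P (u a) + lam • u a) - (P ^ i) (P (u b) + lam • u b) =
        P ((P ^ i) (u a) - (P ^ i) (u b)) + lam • ((P ^ i) (u a) - (P ^ i) (u b)) := by
      rw [abs1_comm, abs1_comm, map_sub, smul_sub]
      abel
    rw [dist_eq_norm, dist_eq_norm, e]
    nlinarith [norm_nonneg ((P ^ i) (u a) - (P ^ i) (u b))]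
  have h4 := (hv 1).add ((hv 0).const_smul lam)
  have h5 := h1 0
  simp only [pow_one, pow_zero, Module.End.one_apply] at h4 h5
  exact ⟨v, tendsto_nhds_unique h4 h5⟩

end Pool.Agent.Lib.MP_94aef8_gt.D
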