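import Pool.Agent.Lib.MP_94aef8_gt.E.Abs1

/-! Solving `P u = f` on an invariant subspace from an a priori estimate. -/

open scoped Topology InnerProductSpace
open Filter Set

namespace Pool.Agent.Lib.MP_94aef8_gt.D

variable {V : Type} [NormedAddCommGroup V] [InnerProductSpace ℝ V] {P : V →ₗ[ℝ] V}

/-- The inverse of `P + lam` (`LinearEquiv.ofBijective`, `low_norm`). -/
theorem exists_res {c lam : ℝ} (low : ∀ u, -c * ‖u‖ ^ 2 ≤ ⟪P u, u⟫_ℝ) (hl : c + 1 ≤ lam)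
    (sy : ∀ u v, ⟪P u, v⟫_ℝ = ⟪u, P v⟫_ℝ) (on : ∀ f, ∃ u, P u + lam • u = f) :
    ∃ T : V →ₗ[ℝ] V, (∀ u, P (T u) + lam • T u = u) ∧ (∀ u, T (P u) = P (T u)) ∧
      (∀ u, ‖T u‖ ≤ ‖u‖) ∧ ∀ u v, ⟪T u, v⟫_ℝ = ⟪u, T v⟫_ℝ := by
  let A : V →ₗ[ℝ] V := P + lam • LinearMap.id
  have hA : ∀ u, ‖u‖ ≤ ‖A u‖ := fun u =>
    (le_mul_of_one_le_left (norm_nonneg u) (by linarith)).trans (low_norm low lam u)
  have inj : Function.Injective A := (injective_iff_map_eq_zero A).2 fun u h =>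
    norm_le_zero_iff.1 (by simpa [h] using hA u)
  let e := LinearEquiv.ofBijective A ⟨inj, on⟩
  have h1 : ∀ u, P (e.symm u) + lam • e.symm u = u := e.apply_symm_apply
  refine ⟨e.symm, h1, fun u => inj ?_, fun u => (hA _).trans_eq (congrArg norm (h1 u)),
    fun u v => ?_⟩
  · refine (h1 (P u)).trans ?_
    change _ = P (P (e.symm u)) + lam • P (e.symm u)
    rw [← map_smul, ← map_add, h1]
  · change ⟪e.symm u, v⟫_ℝ = ⟪u, e.symm v⟫_ℝ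
    conv_lhs => rw [← h1 v]
    conv_rhs => rw [← h1 u]
    rw [inner_add_right, inner_add_left, sy, real_inner_smul_left, real_inner_smul_right]

/-- `‖e - τ S S e‖² = ‖e‖² - 2 τ ‖S e‖² + τ² ‖S S e‖²`, and `‖S S e‖ ≤ L ‖S e‖`; take `τ = 1 / L²`
and `θ = √(1 - 1 / (K² L²))` (enlarge `K`, `L` to be at least `1`). -/
theorem landweber (S : V →ₗ[ℝ] V) (sy : ∀ u v, ⟪S u, v⟫_ℝ = ⟪u, S v⟫_ℝ) {L K : ℝ}
    (hL : ∀ u, ‖S u‖ ≤ L * ‖u‖) : ∃ τ θ : ℝ, 0 ≤ θ ∧ θ < 1 ∧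
      ∀ e, ‖e‖ ≤ K * ‖S e‖ → ‖e - τ • S (S e)‖ ≤ θ * ‖e‖ := by
  obtain ⟨l, hl, hl'⟩ : ∃ l : ℝ, 1 ≤ l ∧ L ≤ l := ⟨max 1 L, le_max_left _ _, le_max_right _ _⟩
  obtain ⟨k, hk, hk'⟩ : ∃ k : ℝ, 1 ≤ k ∧ K ≤ k := ⟨max 1 K, le_max_left _ _, le_max_right _ _⟩
  have h0 : 0 < (l ^ 2)⁻¹ * (k ^ 2)⁻¹ := by positivity
  have h1 : (l ^ 2)⁻¹ * (k ^ 2)⁻¹ ≤ 1 :=
    mul_le_one₀ (inv_le_one_of_one_le₀ (one_le_pow₀ hl)) (by positivity)
      (inv_le_one_of_one_le₀ (one_le_pow₀ hk))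
  refine ⟨(l ^ 2)⁻¹, √(1 - (l ^ 2)⁻¹ * (k ^ 2)⁻¹), Real.sqrt_nonneg _,
    (Real.sqrt_lt' one_pos).2 (by linarith), fun e he => ?_⟩
  have h2 : ‖S (S e)‖ ^ 2 ≤ l ^ 2 * ‖S e‖ ^ 2 := by
    rw [← mul_pow]
    exact pow_le_pow_left₀ (norm_nonneg _) ((hL _).trans (by gcongr)) 2
  have h3 : ‖e‖ ^ 2 ≤ k ^ 2 * ‖S e‖ ^ 2 := by
    rw [← mul_pow]
    exact pow_le_pow_left₀ (norm_nonneg _) (he.trans (by gcongr)) 2
  refine le_of_sq_le_sq ?_ (by positivity)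
  rw [mul_pow, Real.sq_sqrt (by linarith), norm_sub_sq_real, real_inner_smul_right, ← sy,
    real_inner_self_eq_norm_sq, norm_smul, mul_pow, Real.norm_eq_abs, sq_abs]
  have h4 : (l ^ 2)⁻¹ ^ 2 * ‖S (S e)‖ ^ 2 ≤ (l ^ 2)⁻¹ * ‖S e‖ ^ 2 :=
    calc _ ≤ (l ^ 2)⁻¹ ^ 2 * (l ^ 2 * ‖S e‖ ^ 2) := by gcongr
      _ = _ := by field_simp
  have h5 : (l ^ 2)⁻¹ * (k ^ 2)⁻¹ * ‖e‖ ^ 2 ≤ (l ^ 2)⁻¹ * ‖S e‖ ^ 2 :=
    calc _ ≤ (l ^ 2)⁻¹ * (k ^ 2)⁻¹ * (k ^ 2 * ‖S e‖ ^ 2) := by gcongr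
      _ = _ := by field_simp
  linarith

theorem abs2_pow {B : V →ₗ[ℝ] V} {W : Submodule ℝ V} {θ : ℝ} (h0 : 0 ≤ θ)
    (hW : ∀ u ∈ W, B u ∈ W) (h : ∀ u ∈ W, ‖B u‖ ≤ θ * ‖u‖) (n : ℕ) {u : V} (hu : u ∈ W) :
    (B ^ n) u ∈ W ∧ ‖(B ^ n) u‖ ≤ θ ^ n * ‖u‖ := by
  induction n with
  | zero => simpa using hu
  | succ n ih =>
    rw [pow_succ', pow_succ', Module.End.mul_apply, mul_assoc]
    exact ⟨hW _ ih.1, (h _ ih.1).trans (mul_le_mul_of_nonneg_left ih.2 h0)⟩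

theorem abs2_mem {B : V →ₗ[ℝ] V} {W : Submodule ℝ V} (hW : ∀ u ∈ W, B u ∈ W) (n : ℕ) {u : V}
    (hu : u ∈ W) : (B ^ n) u ∈ W := Module.End.pow_apply_mem_of_forall_mem n hW u hu

theorem abs2_S {lam : ℝ} {T : V →ₗ[ℝ] V} (h1 : ∀ u, P (T u) + lam • T u = u)
    (h3 : ∀ u, ‖T u‖ ≤ ‖u‖) (u : V) : ‖P (T u)‖ ≤ (1 + |lam|) * ‖u‖ := by
  rw [eq_sub_of_add_eq (h1 u), add_mul, one_mul]
  refine (norm_sub_le _ _).trans ?_
  rw [norm_smul, Real.norm_eq_abs]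
  gcongr
  exact h3 u

/-- Put `S = P T = 1 - lam T`; all operators commute. For `i < 5`,
`P ^ (i + 1) T ^ 5 v = S ^ i T ^ (4 - i) (S v)`, so the estimate for `T ^ 5 v` gives
`‖T ^ 5 v‖ ≤ K ‖S v‖`; and `v = lam ^ 5 T ^ 5 v + ∑ i < 5, lam ^ i T ^ i (S v)`. -/
theorem low_S {lam Λ : ℝ} {T : V →ₗ[ℝ] V} (h1 : ∀ u, P (T u) + lam • T u = u)
    (h2 : ∀ u, T (P u) = P (T u)) (h3 : ∀ u, ‖T u‖ ≤ ‖u‖) (W : Submodule ℝ V)
    (hT : ∀ u ∈ W, T u ∈ W)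
    (hap : ∀ u ∈ W, ‖u‖ ^ 2 ≤ Λ * ∑ i ∈ Finset.range 5, ‖(P ^ (i + 1)) u‖ ^ 2) :
    ∃ K : ℝ, ∀ v ∈ W, ‖v‖ ≤ K * ‖P (T v)‖ := by
  have hc : Commute P T := LinearMap.ext fun u => (h2 u).symm
  have hp : ∀ j u, ‖(T ^ j) u‖ ≤ ‖u‖ := fun j u => by
    simpa using (abs2_pow (W := ⊤) zero_le_one (fun _ _ => trivial) (fun u _ => by
      simpa using h3 u) j (u := u) trivial).2
  have step : ∀ j, (∃ K : ℝ, ∀ v ∈ W, ‖(T ^ (j + 1)) v‖ ≤ K * ‖P (T v)‖) →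
      ∃ K : ℝ, ∀ v ∈ W, ‖(T ^ j) v‖ ≤ K * ‖P (T v)‖ := by
    rintro j ⟨K, hK⟩
    refine ⟨1 + |lam| * K, fun v hv => ?_⟩
    conv_lhs => rw [← h1 v, map_add, map_smul]
    refine (norm_add_le _ _).trans ?_
    rw [norm_smul, Real.norm_eq_abs, add_mul, one_mul, mul_assoc]
    exact add_le_add (hp _ _) (mul_le_mul_of_nonneg_left (hK v hv) (abs_nonneg _))
  refine step 0 (step 1 (step 2 (step 3 (step 4 ⟨√(|Λ| * 5) * (1 + |lam|) ^ 4, fun v hv => ?_⟩))))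
  have hl : 1 ≤ 1 + |lam| := le_add_of_nonneg_right (abs_nonneg _)
  have h4 : ∀ i ∈ Finset.range 5, ‖(P ^ (i + 1)) ((T ^ (4 + 1)) v)‖ ^ 2 ≤
      ((1 + |lam|) ^ 4 * ‖P (T v)‖) ^ 2 := fun i hi => by
    obtain ⟨j, hj⟩ : ∃ j, 4 = i + j := Nat.exists_eq_add_of_le (by simpa [Nat.lt_succ_iff] using hi)
    have e : P ^ (i + 1) * T ^ (4 + 1) = (P * T) ^ i * (T ^ j * (P * T)) := by
      rw [((hc.mul_left (Commute.refl T)).pow_right j).symm.eq, ← mul_assoc, ← pow_succ,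
        hc.mul_pow, mul_assoc, ← pow_add, hj, add_right_comm i 1 j]
    refine pow_le_pow_left₀ (norm_nonneg _) ?_ 2
    rw [← Module.End.mul_apply, e]
    refine (abs2_pow (B := P * T) (W := ⊤) (by positivity) (fun _ _ => trivial)
      (fun u _ => abs2_S h1 h3 u) i trivial).2.trans ?_
    exact mul_le_mul (pow_le_pow_right₀ hl (by omega)) (hp j _) (norm_nonneg _) (by positivity)
  refine le_of_sq_le_sq ((hap _ (abs2_mem hT _ hv)).trans ?_) (by positivity)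
  rw [mul_assoc, mul_pow, Real.sq_sqrt (by positivity), mul_assoc]
  refine mul_le_mul (le_abs_self _) ((Finset.sum_le_card_nsmul _ _ _ h4).trans_eq (by simp))
    (Finset.sum_nonneg fun _ _ => sq_nonneg _) (abs_nonneg _)

/-- With `B = 1 - τ S S` put `e n = (B ^ n) f` and `u n = ∑ k < n, τ • T (S (e k))`, so that
`P (u n) = f - e n`, `u n ∈ W`, and `(P ^ i) (e n) = (B ^ n) ((P ^ i) f)` has norm at most
`θ ^ n ‖(P ^ i) f‖` (`landweber`, `low_S`). Then `(P ^ i) (u (n + 1)) - (P ^ i) (u n)` has norm at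
most `C θ ^ n` (`cauchySeq_of_le_geometric`). -/
theorem abs_solve {c lam Λ : ℝ} (low : ∀ u, -c * ‖u‖ ^ 2 ≤ ⟪P u, u⟫_ℝ) (hl : c + 1 ≤ lam)
    (sy : ∀ u v, ⟪P u, v⟫_ℝ = ⟪u, P v⟫_ℝ) (on : ∀ f, ∃ u, P u + lam • u = f) (hc : Compl P)
    (W : Submodule ℝ V) (hP : ∀ u ∈ W, P u ∈ W) (hT : ∀ u, P u + lam • u ∈ W → u ∈ W)
    (hW : ∀ (u : ℕ → V) (v : V), (∀ n, u n ∈ W) →
      (∀ i, Tendsto (fun n => (P ^ i) (u n)) atTop (𝓝 ((P ^ i) v))) → v ∈ W)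
    (hap : ∀ u ∈ W, ‖u‖ ^ 2 ≤ Λ * ∑ i ∈ Finset.range 5, ‖(P ^ (i + 1)) u‖ ^ 2)
    {f : V} (hf : f ∈ W) : ∃ u ∈ W, P u = f := by
  obtain ⟨T, h1, h2, h3, h4⟩ := exists_res low hl sy on
  have hTW : ∀ u ∈ W, T u ∈ W := fun u hu => hT _ (by rwa [h1])
  obtain ⟨K, hK⟩ := low_S h1 h2 h3 W hTW hap
  obtain ⟨τ, θ, h0, hθ, hB⟩ := landweber (P * T) (K := K) (fun u v => by
    rw [Module.End.mul_apply, Module.End.mul_apply, sy, h4, h2]) (abs2_S h1 h3)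
  have c1 : Commute P T := LinearMap.ext fun u => (h2 u).symm
  have c2 : Commute P (P * T) := (Commute.refl P).mul_right c1
  let B : V →ₗ[ℝ] V := 1 - τ • (P * T * (P * T))
  let R : V →ₗ[ℝ] V := τ • (T * (P * T))
  have c3 : Commute P B := (Commute.one_right P).sub_right ((c2.mul_right c2).smul_right τ)
  have c4 : Commute P R := (c1.mul_right c2).smul_right τ
  have hb := fun n u hu => abs2_pow (B := B) (W := W) h0 (fun u hu => W.sub_mem hu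
    (W.smul_mem τ (hP _ (hTW _ (hP _ (hTW _ hu)))))) (fun u hu => hB u (hK u hu)) n (u := u) hu
  let u : ℕ → V := fun n => ∑ k ∈ Finset.range n, R ((B ^ k) f)
  have hu : ∀ n, P (u n) = f - (B ^ n) f := fun n => by
    induction n with
    | zero => simp [u]
    | succ n ih =>
      simp only [u] at ih ⊢
      rw [Finset.sum_range_succ, map_add, ih, pow_succ', Module.End.mul_apply]
      simp only [R, B, LinearMap.smul_apply, LinearMap.sub_apply, Module.End.mul_apply, map_smul,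
        Module.End.one_apply]
      abel
  obtain ⟨v, hv⟩ := hc u fun i => by
    refine cauchySeq_of_le_geometric θ (|τ| * ((1 + |lam|) * ‖(P ^ i) f‖)) hθ fun n => ?_
    have e : (P ^ i) (R ((B ^ n) f)) = R ((B ^ n) ((P ^ i) f)) :=
      LinearMap.congr_fun ((c4.mul_right (c3.pow_right n)).pow_left i).eq f
    simp only [u]
    rw [Finset.sum_range_succ, map_add, dist_self_add_right, e]
    change ‖τ • T (P (T _))‖ ≤ _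
    rw [norm_smul, Real.norm_eq_abs, mul_assoc, mul_assoc, mul_comm _ (θ ^ n)]
    gcongr
    exact (h3 _).trans ((abs2_S h1 h3 _).trans (mul_le_mul_of_nonneg_left
      (hb n _ (abs2_mem hP i hf)).2 (by positivity)))
  refine ⟨v, hW u v (fun n => W.sum_mem fun k _ => W.smul_mem τ
    (hTW _ (hP _ (hTW _ (hb k f hf).1)))) hv, ?_⟩
  have h5 : Tendsto (fun n => (B ^ n) f) atTop (𝓝 0) :=
    squeeze_zero_norm (fun n => (hb n f hf).2) (by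
      simpa using (tendsto_pow_atTop_nhds_zero_of_lt_one h0 hθ).mul_const ‖f‖)
  have h6 := hv 1
  simp only [pow_one, hu] at h6
  exact tendsto_nhds_unique h6 (by simpa using h5.const_sub f)

end Pool.Agent.Lib.MP_94aef8_gt.D
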