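import Pool.Agent.Lib.MP_94aef8_gt.E.Sys

/-! Completeness of the space of smooth fields. -/

open scoped ContDiff Topology InnerProductSpace
open Filter Set MeasureTheory Matrix

namespace Pool.Agent.Lib.MP_94aef8_gt.D

variable {V : Type} [NormedAddCommGroup V] [InnerProductSpace ℝ V] {P : V →ₗ[ℝ] V} {A : Type}
  [Fintype A]

theorem cauchy_Nm {u : ℕ → V} (h : ∀ i, CauchySeq fun n => (P ^ i) (u n)) (m : ℕ) {ε : ℝ}
    (hε : 0 < ε) : ∃ N, ∀ n, N ≤ n → ∀ n', N ≤ n' → Nm P m (u n - u n') ≤ ε := by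
  have h1 : Tendsto (fun p : ℕ × ℕ => Nm P m (u p.1 - u p.2)) atTop (𝓝 0) := by
    have h2 := tendsto_finsetSum (Finset.range (m + 1)) fun i _ =>
      (cauchySeq_iff_tendsto_dist_atTop_0.1 (h i)).pow 2
    simp only [ne_eq, OfNat.ofNat_ne_zero, not_false_eq_true, zero_pow, Finset.sum_const_zero,
      dist_eq_norm, ← map_sub] at h2
    exact h2
  obtain ⟨N, hN⟩ := eventually_atTop.1 (h1.eventually (ge_mem_nhds hε))
  exact ⟨max N.1 N.2, fun n hn n' hn' =>
    hN (n, n') ⟨(le_max_left _ _).trans hn, (le_max_right _ _).trans hn'⟩⟩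

theorem bdd_Nm {u : ℕ → V} (h : ∀ i, CauchySeq fun n => (P ^ i) (u n)) (m : ℕ) :
    ∃ B, ∀ n, Nm P m (u n) ≤ B := by
  choose B hB using fun i => (h i).isBounded_range.exists_norm_le
  exact ⟨∑ i ∈ Finset.range (m + 1), B i ^ 2, fun n => Finset.sum_le_sum fun i _ =>
    pow_le_pow_left₀ (norm_nonneg _) (hB i _ ⟨n, rfl⟩) 2⟩

theorem compl_div {C ε : ℝ} (hC : 0 ≤ C) (hε : 0 < ε) : C * (ε / (C + 1)) < ε := by
  rw [← mul_div_assoc, div_lt_iff₀ (by linarith)]
  linarith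

/-- The entries of `loc a (u n) y` are Cauchy sequences for `y ∈ Q (5 / 2)` (`loc_js 0`,
`cauchy_Nm`); let `H y` be the limit. All derivatives are bounded (`loc_js`, `bdd_Nm`, `cb_of_js`),
so `limInf` applies. For `n ≥ N`, `js j (loc a (u n) - H) y` is the limit of
`js j (loc a (u n) - loc a (u n')) y ≤ C ε` (`tendsto_js`, `pdw_sub`). -/
theorem CSys.loc_lim (Z : CSys P A) {u : ℕ → V} (h : ∀ i, CauchySeq fun n => (P ^ i) (u n))
    (a : A) : ∃ H : Tn, SmT H (Q (5 / 2)) ∧ (∀ y ∈ Q (5 / 2), (H y)ᵀ = H y) ∧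
      ∀ (j : ℕ) (ε : ℝ), 0 < ε → ∃ N, ∀ n, N ≤ n → ∀ y ∈ Q (5 / 2),
        jsM j (Z.loc a (u n) - H) y ≤ ε := by
  have hQ : Q (5 / 2) ⊆ Q 3 := Q_mono (by norm_num)
  have hc : ∀ y ∈ Q (5 / 2), ∀ i j, CauchySeq fun n => Z.loc a (u n) y i j := by
    intro y hy i j
    obtain ⟨C, hC0, hC⟩ := Z.loc_js (j := 0) (m := 2) (by norm_num)
    refine Metric.cauchySeq_iff.2 fun ε hε => ?_
    obtain ⟨N, hN⟩ := cauchy_Nm h 2 (ε := ε ^ 2 / (C + 1)) (by positivity)
    refine ⟨N, fun n hn n' hn' => ?_⟩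
    have h1 := (js_le_jsM 0 _ y i j).trans ((hC a (u n - u n') y (Q_sub_Kc _ hy)).trans
      (mul_le_mul_of_nonneg_left (hN n hn n' hn') hC0))
    rw [js_zero, map_sub] at h1
    rw [Real.dist_eq]
    exact abs_lt_of_sq_lt_sq (h1.trans_lt (compl_div hC0 (by positivity))) hε.le
  have hl : ∀ i j, ContDiffOn ℝ ∞ (fun y => limUnder atTop fun n => Z.loc a (u n) y i j)
      (Q (5 / 2)) ∧ ∀ w : List (Fin 4), ∀ y ∈ Q (5 / 2),
      Tendsto (fun n => pdw w (fun z => Z.loc a (u n) z i j) y) atTop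
        (𝓝 (pdw w (fun z => limUnder atTop fun n => Z.loc a (u n) z i j) y)) := by
    intro i j
    refine limInf atTop (isOpen_Q _) (fun n z => Z.loc a (u n) z i j) _
      (fun y hy => (hc y hy i j).tendsto_limUnder) fun m x hx => ?_
    obtain ⟨C, hC0, hC⟩ := Z.loc_js (j := m) (m := m + 2) (by omega)
    obtain ⟨B, hB⟩ := bdd_Nm h (m + 2)
    exact ⟨_, (isOpen_Q _).mem_nhds hx, √(C * B), Eventually.of_forall fun n =>
      ⟨(Z.sm a (u n) i j).mono hQ, cb_of_js fun y hy => (js_le_jsM m _ y i j).trans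
        ((hC a (u n) y (Q_sub_Kc _ hy)).trans (mul_le_mul_of_nonneg_left (hB n) hC0))⟩⟩
  refine ⟨fun y => Matrix.of fun i j => limUnder atTop fun n => Z.loc a (u n) y i j,
    fun i j => (hl i j).1, fun y _ => ?_, fun k ε hε => ?_⟩
  · ext i j
    simp only [Matrix.transpose_apply, Matrix.of_apply]
    congr 1
    funext n
    exact congrFun (congrFun (Z.symm a (u n) y) i) j
  · obtain ⟨C, hC0, hC⟩ := Z.loc_js (j := k) (m := k + 2) (by omega)
    obtain ⟨N, hN⟩ := cauchy_Nm h (k + 2) (ε := ε / (C + 1)) (by positivity)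
    refine ⟨N, fun n hn y hy => ?_⟩
    have hs : ∀ n i j, At (fun z => Z.loc a (u n) z i j) y := fun n i j =>
      (Z.sm a (u n) i j).contDiffAt ((isOpen_Q _).mem_nhds (hQ hy))
    refine le_of_tendsto (f := fun n' => jsM k (Z.loc a (u n - u n')) y) (x := atTop)
      (tendsto_finsetSum _ fun i _ => tendsto_finsetSum _ fun j _ => tendsto_js k fun w _ => ?_)
      (eventually_atTop.2 ⟨N, fun n' hn' => ((hC a _ y (Q_sub_Kc _ hy)).trans
        (mul_le_mul_of_nonneg_left (hN n hn n' hn') hC0)).trans (compl_div hC0 hε).le⟩)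
    have e1 := (pdw_sub (hs n i j) ((hl i j).1.contDiffAt ((isOpen_Q _).mem_nhds hy)) w).eq_of_nhds
    have h1 := ((hl i j).2 w y hy).const_sub (pdw w (fun z => Z.loc a (u n) z i j) y)
    rw [Pi.sub_apply] at e1
    rw [← e1] at h1
    refine h1.congr fun n' => ?_
    rw [map_sub]
    exact (pdw_sub (hs n i j) (hs n' i j) w).eq_of_nhds.symm

/-- Put `v = ∑ a, ext a (χ a • H a)`. Then `u n - v = ∑ a, ext a (χ a • (loc a (u n) - H a))`
(`part`, `ext_sub`, `adm_cut`), and its norm `Nm P m` tends to `0` by `Nm_sum`, `ext_up`,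
`hs_eq_of_zero` (pass from `Q (5 / 2)` to `Q 2`), `hsM_cut`, `hs_le_vol`. -/
theorem CSys.compl (Z : CSys P A) : Compl P := by
  intro u h
  choose H hH hsy hlim using Z.loc_lim h
  refine ⟨∑ a, Z.ext a fun y => Z.χ a y • H a y, fun m => ?_⟩
  have hso : ∀ a, SoM (Kc 2) (H a) := fun a => soM_Kc (by norm_num) (hH a)
  have h12 : Kc 1 ⊆ Kc 2 := Kc_mono (by norm_num)
  have hA : ∀ a, Adm fun y => Z.χ a y • H a y := fun a =>
    adm_cut (Z.χsm a) (Z.χz a) (by norm_num) ((hso a).mono h12)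
      fun y hy => hsy a y (Kc_sub_Q (by norm_num) hy)
  obtain ⟨C1, h10, hC1⟩ := Z.ext_up m
  choose C2 h20 hC2 using fun a => hsM_cut (Z.χsm a) (Z.χz a) (2 * m)
  obtain ⟨K, hK⟩ : ∃ K, K = (Fintype.card A : ℝ) *
    ∑ a, C1 * (C2 a * (16 * volume.real (Q 2))) := ⟨_, rfl⟩
  have hK0 : 0 ≤ K := by
    rw [hK]
    exact mul_nonneg (Nat.cast_nonneg _) (Finset.sum_nonneg fun a _ =>
      mul_nonneg h10 (mul_nonneg (h20 a) (by positivity)))
  have key : ∀ ε : ℝ, 0 < ε → ∀ᶠ n in atTop,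
      Nm P m (u n - ∑ a, Z.ext a fun y => Z.χ a y • H a y) ≤ K * ε := by
    intro ε hε
    filter_upwards [eventually_all.2 fun a => eventually_atTop.2 (hlim a (2 * m) ε hε)] with n hn
    have e : u n - ∑ a, Z.ext a (fun y => Z.χ a y • H a y) =
        ∑ a, Z.ext a ((fun y => Z.χ a y • Z.loc a (u n) y) - fun y => Z.χ a y • H a y) := by
      rw [Finset.sum_congr rfl fun a _ => Z.ext_sub a (Z.adm_loc a (u n)) (hA a),
        Finset.sum_sub_distrib, Z.part]
    rw [e, hK, mul_assoc, Finset.sum_mul]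
    refine (Nm_sum P m _ _).trans (mul_le_mul_of_nonneg_left
      (Finset.sum_le_sum fun a _ => ?_) (Nat.cast_nonneg _))
    refine (hC1 a _ ((Z.adm_loc a (u n)).sub (hA a))).trans ?_
    rw [mul_assoc]
    refine mul_le_mul_of_nonneg_left ?_ h10
    have e2 : ((fun y => Z.χ a y • Z.loc a (u n) y) - fun y => Z.χ a y • H a y) =
        fun y => Z.χ a y • (Z.loc a (u n) - H a) y := by
      funext y
      simp only [Pi.sub_apply, smul_sub]
    have hD : SoM (Kc 2) (Z.loc a (u n) - H a) := fun i j =>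
      (Z.so a (u n) (by norm_num) i j).sub (hso a i j)
    have e3 : hsM (2 * m) (Q (5 / 2)) (fun y => Z.χ a y • (Z.loc a (u n) - H a) y) =
        hsM (2 * m) (Q 2) fun y => Z.χ a y • (Z.loc a (u n) - H a) y :=
      Finset.sum_congr rfl fun i _ => Finset.sum_congr rfl fun j _ =>
        hs_eq_of_zero (isClosed_Kc 1) (Kc_sub_Q (by norm_num)) (Kc_sub_Q (by norm_num))
          (fun y hy => by simp only [Z.χz a y hy, zero_smul, Matrix.zero_apply]) _
    rw [e2, e3, mul_assoc, mul_assoc]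
    refine (hC2 a 2 _ hD).trans (mul_le_mul_of_nonneg_left (hsM_le fun i j => ?_) (h20 a))
    exact hs_le_vol (hD i j) fun y hy =>
      (js_le_jsM _ _ y i j).trans (hn a y (Q_mono (by norm_num) hy))
  refine Metric.tendsto_nhds.2 fun ε hε => ?_
  filter_upwards [key (ε ^ 2 / (K + 1)) (by positivity)] with n hn
  rw [dist_eq_norm, ← map_sub]
  exact lt_of_pow_lt_pow_left₀ 2 hε.le
    (((sq_le_Nm P le_rfl _).trans hn).trans_lt (compl_div hK0 (by positivity)))

end Pool.Agent.Lib.MP_94aef8_gt.D
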