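import Pool.Agent.Lib.MP_94aef8_gt.E.Sch
import Pool.Agent.Lib.MP_94aef8_gt.D.Lin

/-! Energy estimates on the whole space. -/

open scoped ContDiff Topology
open Filter Set MeasureTheory Matrix

namespace Pool.Agent.Lib.MP_94aef8_gt.D

/-- `1 + β` is elliptic and `β` has compact support. -/
structure Cf (c : ℝ) (β : Tn) : Prop where
  pos : 0 < c
  le : c ≤ 1
  sm : ∀ i j, ContDiff ℝ ∞ fun y => β y i j
  cs : ∀ i j, HasCompactSupport fun y => β y i j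
  ell : ∀ (y : E4) (v : Fin 4 → ℝ), c * (v ⬝ᵥ v) ≤ v ⬝ᵥ v + v ⬝ᵥ β y *ᵥ v

/-- The field `β ∂ z`. -/
noncomputable def bd (β : Tn) (z : Fn) (i : Fin 4) : Fn := ∑ j, (fun y => β y i j) * pd j z

/-- The operator `μ - ∂_i (δ + β)^{i j} ∂_j`. -/
noncomputable def L1 (μ : ℝ) (β : Tn) (z : Fn) : Fn := L0 μ z - dv (bd β z)

/-- The energy of order `k`. -/
noncomputable def En (μ : ℝ) (k : ℕ) (z : Fn) : ℝ := μ * hs k univ z + ∑ i, hs k univ (pd i z)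

/-- The energy of order `k - 1`. -/
noncomputable def Enp (μ : ℝ) : ℕ → Fn → ℝ
  | 0, _ => 0
  | k + 1, z => En μ k z

/-- One step of the iteration contracts the energy up to terms of lower order. -/
def Rich (β : Tn) (τ θ : ℝ) (k : ℕ) (C : ℝ) : Prop :=
  ∀ (μ : ℝ) (z y : Fn) (g : Fin 4 → Fn), 0 ≤ μ → Sch z → Sch y → (∀ i, Sch (g i)) →
    L0 μ y = L1 μ β z - dv g →
    En μ k (z - τ • y) ≤ θ * En μ k z + C * (Enp μ k z + ∑ i, hs k univ (g i))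

/-- The a priori estimate. -/
def Apri (β : Tn) (k : ℕ) (C : ℝ) : Prop :=
  ∀ (μ : ℝ) (F g0 : Fn) (g : Fin 4 → Fn), 1 ≤ μ → Sch F → Sch g0 → (∀ i, Sch (g i)) →
    L1 μ β F = g0 + dv g → En μ k F ≤ C * (μ⁻¹ * hs k univ g0 + ∑ i, hs k univ (g i))

variable {c μ : ℝ} {β : Tn} {z φ : Fn}

theorem Cf.bd (h : Cf c β) (hz : Sch z) (i : Fin 4) : Sch (bd β z i) :=
  Sch.sum _ fun j _ => (hz.pd j).cmul (h.sm i j) (h.cs i j)

theorem Cf.l1 (h : Cf c β) (μ : ℝ) (hz : Sch z) : Sch (L1 μ β z) :=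
  (hz.l0 μ).sub (Sch.dv (h.bd hz))

theorem Cf.abs_le (h : Cf c β) : ∃ B, 0 ≤ B ∧ ∀ y i j, |β y i j| ≤ B := by
  choose B hB using fun q : Fin 4 × Fin 4 =>
    (h.sm q.1 q.2).continuous.bounded_above_of_compact_support (h.cs q.1 q.2)
  obtain ⟨M, hM⟩ := (Set.finite_range B).bddAbove
  exact ⟨max M 0, le_max_right _ _, fun y i j =>
    ((hB (i, j) y).trans (hM ⟨(i, j), rfl⟩)).trans (le_max_left _ _)⟩

theorem En_nonneg (hμ : 0 ≤ μ) (k : ℕ) (z : Fn) : 0 ≤ En μ k z :=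
  add_nonneg (mul_nonneg hμ (hs_nonneg _ _ _)) (Finset.sum_nonneg fun _ _ => hs_nonneg _ _ _)

theorem en0_intS {a b : Fin 4 → Fn} (ha : ∀ i, Sch (a i)) (hb : ∀ i, Sch (b i)) :
    Integrable fun p => ∑ i, a i p * b i p :=
  integrable_finsetSum _ fun i _ => (ha i).int_mul (hb i)

theorem en0_int (μ : ℝ) (hz : Sch z) (hφ : Sch φ) {a b : Fin 4 → Fn} (ha : ∀ i, Sch (a i))
    (hb : ∀ i, Sch (b i)) : Integrable fun p => μ * (z p * φ p) + ∑ i, a i p * b i p :=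
  ((hz.int_mul hφ).const_mul μ).add (en0_intS ha hb)

theorem en0_sum {g : Fin 4 → Fn} (hg : ∀ i, Sch (g i)) :
    ∑ i, hs 0 univ (g i) = ∫ p, ∑ i, g i p * g i p := by
  rw [integral_finsetSum _ fun i _ => (hg i).int_mul (hg i)]
  simp only [hs_univ, sq]

theorem en0_En (μ : ℝ) (hz : Sch z) :
    En μ 0 z = ∫ p, (μ * (z p * z p) + ∑ i, pd i z p * pd i z p) := by
  rw [integral_add ((hz.int_mul hz).const_mul μ) (en0_intS hz.pd hz.pd), integral_const_mul, En,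
    en0_sum hz.pd, hs_univ]
  simp only [sq]

theorem En_zero (μ : ℝ) (hz : Sch z) :
    En μ 0 z = ∫ p, (μ * z p ^ 2 + ∑ i, pd i z p ^ 2) := by
  simp only [en0_En μ hz, sq]

theorem en0_weak (μ : ℝ) (hz : Sch z) (hφ : Sch φ) {a : Fin 4 → Fn} (ha : ∀ i, Sch (a i)) :
    ∫ p, (μ • z - dv a) p * φ p = ∫ p, (μ * (z p * φ p) + ∑ i, a i p * pd i φ p) := by
  have e : ∀ p, (μ • z - dv a) p * φ p = μ * (z p * φ p) - dv a p * φ p := fun p => by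
    simp only [Pi.sub_apply, Pi.smul_apply, smul_eq_mul]
    ring
  simp only [e]
  rw [integral_sub ((hz.int_mul hφ).const_mul μ) ((Sch.dv ha).int_mul hφ), int_dv ha hφ,
    integral_add ((hz.int_mul hφ).const_mul μ) (en0_intS ha hφ.pd), sub_neg_eq_add]

theorem en0_L1 (h : Cf c β) (μ : ℝ) (hz : Sch z) :
    L1 μ β z = μ • z - dv fun i => pd i z + bd β z i := by
  rw [dv_add hz.pd (h.bd hz), L1, L0, sub_sub]

theorem en0_lin {f1 f2 f3 f4 f5 : Fn} (i1 : Integrable f1) (i2 : Integrable f2)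
    (i3 : Integrable f3) (i4 : Integrable f4) (i5 : Integrable f5) {a1 a2 a3 a4 a5 : ℝ}
    (h : ∀ p, 0 ≤ a1 * f1 p + a2 * f2 p + a3 * f3 p + a4 * f4 p + a5 * f5 p) :
    0 ≤ a1 * (∫ p, f1 p) + a2 * (∫ p, f2 p) + a3 * (∫ p, f3 p) + a4 * (∫ p, f4 p) +
      a5 * ∫ p, f5 p := by
  have j1 := (i1.const_mul a1).add (i2.const_mul a2)
  have j2 := j1.add (i3.const_mul a3)
  have j3 := j2.add (i4.const_mul a4)
  have e := integral_add j3 (i5.const_mul a5)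
  rw [integral_add' j2 (i4.const_mul a4), integral_add' j1 (i3.const_mul a3),
    integral_add' (i1.const_mul a1) (i2.const_mul a2)] at e
  simp only [integral_const_mul] at e
  rw [← e]
  exact integral_nonneg h

theorem en0_dot {t : ℝ} (ht : 0 < t) (x u : Fin 4 → ℝ) :
    2 * (x ⬝ᵥ u) ≤ t * (x ⬝ᵥ x) + t⁻¹ * (u ⬝ᵥ u) := by
  simp only [dotProduct, Finset.mul_sum, ← Finset.sum_add_distrib]
  refine Finset.sum_le_sum fun i _ => ?_
  have e : t * t⁻¹ = 1 := mul_inv_cancel₀ ht.ne'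
  have h := mul_nonneg (inv_pos.2 ht).le (sq_nonneg (t * x i - u i))
  have e2 : t⁻¹ * (t * x i - u i) ^ 2 = t * t⁻¹ * (t * (x i * x i) - 2 * (x i * u i)) +
      t⁻¹ * (u i * u i) := by ring
  rw [e2, e] at h
  linarith

theorem en0_nn (x : Fin 4 → ℝ) : 0 ≤ x ⬝ᵥ x := Finset.sum_nonneg fun _ _ => mul_self_nonneg _

theorem en0_pt {Λ τ : ℝ} (hτ : 0 < τ) (hc : 0 < c) (e : τ * Λ = c) {v b : Fin 4 → ℝ}
    (h1 : c * (v ⬝ᵥ v) ≤ v ⬝ᵥ v + v ⬝ᵥ b) (h2 : 2 * (v ⬝ᵥ v) + 2 * (b ⬝ᵥ b) ≤ Λ * (v ⬝ᵥ v))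
    (g u : Fin 4 → ℝ) : 2 * (v ⬝ᵥ u - τ * ((v + b + g) ⬝ᵥ u)) ≤
      (1 - (τ * c) ^ 2) * (v ⬝ᵥ v) + (1 + (τ * c)⁻¹) * τ ^ 2 * (g ⬝ᵥ g) + u ⬝ᵥ u := by
  have hδ : 0 < τ * c := mul_pos hτ hc
  obtain ⟨a, ha⟩ : ∃ a, a = v - τ • (v + b) := ⟨_, rfl⟩
  have h3 : a ⬝ᵥ a ≤ (1 - τ * c) * (v ⬝ᵥ v) := by
    have e1 : a ⬝ᵥ a = v ⬝ᵥ v - 2 * τ * (v ⬝ᵥ v + v ⬝ᵥ b) +
        τ ^ 2 * (v ⬝ᵥ v + 2 * (v ⬝ᵥ b) + b ⬝ᵥ b) := by
      simp only [ha, sub_dotProduct, dotProduct_sub, smul_dotProduct, dotProduct_smul,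
        add_dotProduct, dotProduct_add, smul_eq_mul, dotProduct_comm b v]
      ring
    have e2 := en0_dot one_pos v b
    have e3 : v ⬝ᵥ v + 2 * (v ⬝ᵥ b) + b ⬝ᵥ b ≤ Λ * (v ⬝ᵥ v) := by
      rw [inv_one] at e2
      linarith
    have e4 := mul_le_mul_of_nonneg_left e3 (sq_nonneg τ)
    have e5 := mul_le_mul_of_nonneg_left h1 hτ.le
    have e6 : τ ^ 2 * (Λ * (v ⬝ᵥ v)) = τ * (c * (v ⬝ᵥ v)) := by
      rw [← e]
      ring
    linarith
  have h4 := en0_dot hδ a (-τ • g)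
  have h5 := en0_dot one_pos (a - τ • g) u
  have h6 := mul_le_mul_of_nonneg_left h3 (add_pos one_pos hδ).le
  have h7 : v ⬝ᵥ u - τ * ((v + b + g) ⬝ᵥ u) = a ⬝ᵥ u - τ * (g ⬝ᵥ u) := by
    simp only [ha, sub_dotProduct, smul_dotProduct, add_dotProduct, smul_eq_mul]
    ring
  simp only [sub_dotProduct, dotProduct_sub, smul_dotProduct, dotProduct_smul, smul_eq_mul,
    dotProduct_comm g a, inv_one, one_mul] at h4 h5
  rw [h7]
  linarith

theorem en0_bd (β : Tn) (z : Fn) (p : E4) :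
    (fun i => bd β z i p) = β p *ᵥ fun j => pd j z p := by
  ext i
  simp [bd, mulVec, dotProduct, Finset.sum_apply]

/-- `int_dv`. -/
theorem weak_L0 (μ : ℝ) (hz : Sch z) (hφ : Sch φ) :
    ∫ p, L0 μ z p * φ p = ∫ p, (μ * (z p * φ p) + ∑ i, pd i z p * pd i φ p) :=
  en0_weak μ hz hφ hz.pd

theorem Cf.weak (h : Cf c β) (μ : ℝ) (hz : Sch z) (hφ : Sch φ) : ∫ p, L1 μ β z p * φ p =
    ∫ p, (μ * (z p * φ p) + ∑ i, (pd i z p + D.bd β z i p) * pd i φ p) := by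
  rw [en0_L1 h μ hz]
  exact en0_weak μ hz hφ fun i => (hz.pd i).add (h.bd hz i)

/-- Let `B0 (y, φ) = ∫ μ y φ + ∂y ∂φ`. The equation gives
`B0 (y, φ) = ∫ μ z φ + (∂z + β ∂z + g) ∂φ` (`weak_L0`, `Cf.weak`, `int_dv`). With `φ = z` and
`Cf.ell`: `B0 (y, z) ≥ (c / 2) En z - |g|² / (2 c)`. With `φ = y` and `mulVec_sq_le`:
`En y ≤ Λ En z + 3 |g|²` with `Λ = 3 + 48 B²`. Expand
`En (z - τ y) = En z - 2 τ B0 (y, z) + τ² En y` and take `τ = c / (2 Λ)`, `θ = 1 - τ c / 2`. -/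
theorem rich_zero (h : Cf c β) : ∃ τ θ C, 0 ≤ θ ∧ θ < 1 ∧ 0 ≤ C ∧ Rich β τ θ 0 C := by
  obtain ⟨B, -, hB⟩ := h.abs_le
  have hc := h.pos
  have hc1 := h.le
  obtain ⟨τ, hτ, e⟩ : ∃ τ : ℝ, 0 < τ ∧ τ * (2 + 32 * B ^ 2) = c :=
    ⟨c / (2 + 32 * B ^ 2), by positivity, div_mul_cancel₀ _ (by positivity)⟩
  have h1 : τ ≤ 1 := by nlinarith [mul_nonneg hτ.le (sq_nonneg B)]
  have h2 : τ * c ≤ τ := mul_le_of_le_one_right hτ.le hc1
  have h3 : 0 < τ * c := mul_pos hτ hc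
  have h4 : (1 - τ) ^ 2 ≤ 1 - (τ * c) ^ 2 := by nlinarith
  refine ⟨τ, 1 - (τ * c) ^ 2, (1 + (τ * c)⁻¹) * τ ^ 2, (sq_nonneg _).trans h4,
    sub_lt_self _ (by positivity), by positivity, fun μ z y g hμ hz hy hg heq => ?_⟩
  have hw : Sch (z - τ • y) := hz.sub (hy.smul τ)
  have ha : ∀ i, Sch (pd i z + bd β z i + g i) := fun i => ((hz.pd i).add (h.bd hz i)).add (hg i)
  have e1 := weak_L0 μ hy hw
  rw [heq, en0_L1 h μ hz, sub_sub, ← dv_add (fun i => (hz.pd i).add (h.bd hz i)) hg,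
    en0_weak μ hz hw ha] at e1
  have e2 : ∀ i p, pd i (z - τ • y) p = pd i z p - τ * pd i y p := fun i p => by
    rw [pd_sub (diffAt hz.sm.contDiffAt) (diffAt (hy.smul τ).sm.contDiffAt), pd_smul]
    rfl
  have e3 := en0_lin (en0_int μ hz hz hz.pd hz.pd) (en0_intS hg hg) (en0_int μ hw hw hw.pd hw.pd)
    (en0_int μ hz hw ha hw.pd) (en0_int μ hy hw hy.pd hw.pd) (a1 := 1 - (τ * c) ^ 2)
    (a2 := (1 + (τ * c)⁻¹) * τ ^ 2) (a3 := -1) (a4 := 2 * τ) (a5 := -(2 * τ)) fun p => by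
      have t1 := en0_pt hτ hc e (h.ell p fun j => pd j z p)
        (by linarith [mulVec_sq_le (hB p) fun j => pd j z p]) (fun i => g i p)
        fun i => pd i (z - τ • y) p
      rw [← en0_bd] at t1
      have t2 : ∑ i, pd i (z - τ • y) p * pd i (z - τ • y) p = ∑ i, pd i z p * pd i (z - τ • y) p -
          τ * ∑ i, pd i y p * pd i (z - τ • y) p := by
        rw [Finset.mul_sum, ← Finset.sum_sub_distrib]
        refine Finset.sum_congr rfl fun i _ => ?_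
        rw [← mul_assoc, ← sub_mul, ← e2]
      have t3 := mul_nonneg hμ (sq_nonneg ((1 - τ) * z p - (z p - τ * y p)))
      have t4 := mul_le_mul_of_nonneg_left (mul_le_mul_of_nonneg_right h4 (sq_nonneg (z p))) hμ
      simp only [dotProduct, Pi.add_apply] at t1 ⊢
      rw [show (z - τ • y) p = z p - τ * y p from rfl]
      linarith
  rw [← en0_En μ hz, ← en0_En μ hw, ← en0_sum hg, e1] at e3
  simp only [Enp, zero_add]
  linarith

/-- `Cf.weak` with `φ = F`, `g0 F ≤ μ F² / 2 + g0² / (2 μ)`, `|g ∂F| ≤ c |∂F|² / 2 + |g|² / (2 c)`. -/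
theorem apri_zero (h : Cf c β) : ∃ C, 0 ≤ C ∧ Apri β 0 C := by
  have hc := h.pos
  have hc1 := h.le
  refine ⟨c⁻¹ * c⁻¹, by positivity, fun μ F g0 g hμ hF hg0 hg heq => ?_⟩
  have hμ0 : 0 < μ := one_pos.trans_le hμ
  have ha : ∀ i, Sch (pd i F + bd β F i + g i) := fun i => ((hF.pd i).add (h.bd hF i)).add (hg i)
  have e1 := en0_weak μ hF hF ha
  rw [dv_add (fun i => (hF.pd i).add (h.bd hF i)) hg, ← sub_sub, ← en0_L1 h μ hF, heq,
    add_sub_cancel_right] at e1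
  have e3 := en0_lin (en0_int μ hF hF hF.pd hF.pd) (en0_intS hg hg) (hg0.int_mul hg0)
    (en0_int μ hF hF ha hF.pd) (hg0.int_mul hF) (a1 := -c) (a2 := c⁻¹) (a3 := μ⁻¹) (a4 := 2)
    (a5 := -2) fun p => by
      have t1 := h.ell p fun j => pd j F p
      rw [← en0_bd] at t1
      have t2 := en0_dot hc (fun j => pd j F p) (-fun i => g i p)
      have t3 := mul_nonneg (inv_pos.2 hμ0).le (sq_nonneg (μ * F p - g0 p))
      have t4 : μ⁻¹ * (μ * F p - g0 p) ^ 2 = μ * μ⁻¹ * (μ * (F p * F p) - 2 * (g0 p * F p)) +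
          μ⁻¹ * (g0 p * g0 p) := by ring
      rw [t4, mul_inv_cancel₀ hμ0.ne'] at t3
      have t5 := mul_le_of_le_one_left (mul_nonneg hμ0.le (mul_self_nonneg (F p))) hc1
      have t6 : ∑ i, (pd i F + bd β F i + g i) p * pd i F p = ∑ i, pd i F p * pd i F p +
          ∑ i, pd i F p * bd β F i p + ∑ i, pd i F p * g i p := by
        rw [← Finset.sum_add_distrib, ← Finset.sum_add_distrib]
        refine Finset.sum_congr rfl fun i _ => ?_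
        simp only [Pi.add_apply]
        ring
      rw [dotProduct_neg, neg_dotProduct_neg] at t2
      simp only [dotProduct] at t1 t2
      rw [t6]
      linarith
  have e4 : ∫ p, g0 p * g0 p = hs 0 univ g0 := by simp only [hs_univ, sq]
  rw [← en0_En μ hF, ← en0_sum hg, ← e1, e4] at e3
  have e5 : μ⁻¹ * hs 0 univ g0 ≤ c⁻¹ * (μ⁻¹ * hs 0 univ g0) :=
    le_mul_of_one_le_left (mul_nonneg (inv_pos.2 hμ0).le (hs_nonneg _ _ _))
      (one_le_inv_iff₀.2 ⟨hc, hc1⟩)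
  rw [mul_assoc, le_inv_mul_iff₀ hc]
  linarith

end Pool.Agent.Lib.MP_94aef8_gt.D
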