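import Pool.Agent.Lib.MP_94aef8_gt.E.En0
import Pool.Agent.Lib.MP_94aef8_gt.D.Co

/-! Energy estimates of higher order and approximate solutions on the whole space. -/

open scoped ContDiff Topology
open Filter Set MeasureTheory Matrix

namespace Pool.Agent.Lib.MP_94aef8_gt.D

variable {c μ : ℝ} {β : Tn} {z y : Fn}

/-- `hs_succ`. -/
theorem En_succ (μ : ℝ) (k : ℕ) (z : Fn) :
    En μ (k + 1) z = En μ 0 z + ∑ i, En μ k (pd i z) := by
  simp only [En, hs_succ, Finset.sum_add_distrib, ← Finset.mul_sum]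
  ring

theorem enk_add {f g : Fn} (hf : Sch f) (hg : Sch g) (l : Fin 4) :
    pd l (f + g) = pd l f + pd l g :=
  funext fun _ => pd_add (diffAt hf.sm.contDiffAt) (diffAt hg.sm.contDiffAt) l

theorem enk_sub {f g : Fn} (hf : Sch f) (hg : Sch g) (l : Fin 4) :
    pd l (f - g) = pd l f - pd l g :=
  funext fun _ => pd_sub (diffAt hf.sm.contDiffAt) (diffAt hg.sm.contDiffAt) l

theorem enk_sch (h : Cf c β) (hz : Sch z) (l i : Fin 4) : Sch (D.bd (dM l β) z i) :=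
  Sch.sum _ fun j _ => (hz.pd j).cmul (sm_pd (h.sm i j) l) (cs_pd (h.cs i j) l)

theorem enk_bd (h : Cf c β) (hz : Sch z) (l i : Fin 4) :
    pd l (D.bd β z i) = D.bd β (pd l z) i + D.bd (dM l β) z i := by
  funext y
  rw [D.bd, pd_sum _ fun j _ => diffAt ((hz.pd j).cmul (h.sm i j) (h.cs i j)).sm.contDiffAt]
  simp only [D.bd, Pi.add_apply, Finset.sum_apply, ← Finset.sum_add_distrib]
  refine Finset.sum_congr rfl fun j _ => ?_
  rw [pd_mul (diffAt (h.sm i j).contDiffAt) (diffAt (hz.pd j).sm.contDiffAt),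
    pd_comm hz.sm.contDiffAt l j, add_comm]
  rfl

theorem Cf.pd_L1 (h : Cf c β) (μ : ℝ) (hz : Sch z) (l : Fin 4) :
    pd l (L1 μ β z) = L1 μ β (pd l z) - dv (D.bd (dM l β) z) := by
  rw [L1, L1, enk_sub (hz.l0 μ) (Sch.dv (h.bd hz)), pd_L0 μ hz, pd_dv (h.bd hz), sub_sub,
    ← dv_add (h.bd (hz.pd l)) (enk_sch h hz l)]
  simp only [enk_bd h hz]

theorem Cf.bd_dM (h : Cf c β) (hz : Sch z) (l i : Fin 4) : Sch (D.bd (dM l β) z i) :=
  enk_sch h hz l i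

/-- `cs_bdd`, `hs_sum4`, `IH.hs_bmul`. -/
theorem Cf.hs_bd_dM (h : Cf c β) (k : ℕ) : ∃ K, 0 ≤ K ∧ ∀ z, Sch z → ∀ l i,
    hs k univ (D.bd (dM l β) z i) ≤ K * ∑ j, hs k univ (pd j z) := by
  choose B h0 hB using fun t : Fin 4 × Fin 4 × Fin 4 =>
    cs_bdd (sm_pd (h.sm t.2.1 t.2.2) t.1) (cs_pd (h.cs t.2.1 t.2.2) t.1) k
  have h1 : 0 ≤ ∑ t, B t := Finset.sum_nonneg fun t _ => h0 t
  refine ⟨4 * (5 ^ k * ∑ t, B t), by positivity, fun z hz l i => ?_⟩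
  have h2 := fun j => ((hz.pd j).cmul (sm_pd (h.sm i j) l) (cs_pd (h.cs i j) l)).ih
  refine (hs_sum4 k h2).trans ?_
  rw [mul_assoc, Finset.mul_sum _ _ (5 ^ k * _)]
  refine mul_le_mul_of_nonneg_left (Finset.sum_le_sum fun j _ => ?_) (by norm_num)
  exact (h2 j).hs_bmul (so_of_sm (sm_pd (h.sm i j) l) _) (hz.pd j).ih fun y _ =>
    (hB (l, i, j) y).trans (Finset.single_le_sum (fun t _ => h0 t) (Finset.mem_univ _))

theorem enk_p (hμ : 0 ≤ μ) (k : ℕ) (z : Fn) : ∑ l, Enp μ k (pd l z) ≤ En μ k z := by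
  cases k with
  | zero => simpa [Enp] using En_nonneg hμ 0 z
  | succ k =>
    rw [En_succ]
    exact le_add_of_nonneg_left (En_nonneg hμ 0 z)

/-- The new right sides. -/
theorem enk_rhs (h : Cf c β) (k : ℕ) : ∃ K, 0 ≤ K ∧ ∀ (μ : ℝ) (z : Fn) (g : Fin 4 → Fn), 0 ≤ μ →
    Sch z → (∀ i, Sch (g i)) → ∑ l, ∑ i, hs k univ (pd l (g i) + D.bd (dM l β) z i) ≤
      2 * ∑ i, hs (k + 1) univ (g i) + K * En μ k z := by
  obtain ⟨K, h0, H⟩ := h.hs_bd_dM k
  refine ⟨32 * K, by positivity, fun μ z g hμ hz hg => ?_⟩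
  have h1 : K * ∑ j, hs k univ (pd j z) ≤ K * En μ k z := mul_le_mul_of_nonneg_left
    (le_add_of_nonneg_left (mul_nonneg hμ (hs_nonneg _ _ _))) h0
  have h2 : ∑ l, ∑ i, hs k univ (pd l (g i) + D.bd (dM l β) z i) ≤
      ∑ l, ∑ i, (2 * hs k univ (pd l (g i)) + 2 * (K * En μ k z)) :=
    Finset.sum_le_sum fun l _ => Finset.sum_le_sum fun i _ => by
      linarith [((hg i).pd l).ih.hs_add k (h.bd_dM hz l i).ih, H z hz l i]
  have h3 : ∑ i, ∑ l, hs k univ (pd l (g i)) ≤ ∑ i, hs (k + 1) univ (g i) :=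
    Finset.sum_le_sum fun i _ => hs_sum_pd k univ (g i)
  rw [Finset.sum_comm] at h3
  simp only [Finset.sum_add_distrib, ← Finset.mul_sum, Finset.sum_const, Finset.card_univ,
    Fintype.card_fin, nsmul_eq_mul, Nat.cast_ofNat] at h2
  linarith

/-- `En_succ` for `z - τ • y`; apply the estimate of order `k` to `pd l z`, `pd l y` and
`fun i => pd l (g i) + bd (dM l β) z i`. -/
theorem rich_succ (h : Cf c β) {τ θ C0 C : ℝ} {k : ℕ} (hC0 : 0 ≤ C0) (hC : 0 ≤ C)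
    (h0 : Rich β τ θ 0 C0) (hk : Rich β τ θ k C) : ∃ C', 0 ≤ C' ∧ Rich β τ θ (k + 1) C' := by
  obtain ⟨K, hK, H⟩ := enk_rhs h k
  refine ⟨C0 + C * (2 + K), by positivity, fun μ z y g hμ hz hy hg e => ?_⟩
  have h1 := h0 μ z y g hμ hz hy hg e
  have h2 : ∑ l, En μ k (pd l (z - τ • y)) ≤ ∑ l, (θ * En μ k (pd l z) + C * (Enp μ k (pd l z) +
      ∑ i, hs k univ (pd l (g i) + D.bd (dM l β) z i))) := Finset.sum_le_sum fun l _ => by
    rw [enk_sub hz (hy.smul τ), pd_smul]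
    refine hk μ _ _ _ hμ (hz.pd l) (hy.pd l) (fun i => ((hg i).pd l).add (h.bd_dM hz l i)) ?_
    rw [← pd_L0 μ hy, e, enk_sub (h.l1 μ hz) (Sch.dv hg), h.pd_L1 μ hz, pd_dv hg,
      dv_add (fun i => (hg i).pd l) (h.bd_dM hz l), sub_sub, add_comm]
  simp only [Finset.sum_add_distrib, ← Finset.mul_sum] at h2
  have h3 := mul_le_mul_of_nonneg_left (add_le_add (enk_p hμ k z) (H μ z g hμ hz hg)) hC
  have h4 : ∑ i, hs 0 univ (g i) ≤ ∑ i, hs (k + 1) univ (g i) :=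
    Finset.sum_le_sum fun i _ => hs_mono (Nat.zero_le _) _ _
  have h5 : 0 ≤ ∑ i, hs (k + 1) univ (g i) := Finset.sum_nonneg fun i _ => hs_nonneg _ _ _
  have h6 := En_nonneg hμ k z
  rw [En_succ, En_succ μ k z]
  simp only [Enp] at h1 ⊢
  nlinarith [mul_le_mul_of_nonneg_left h4 hC0, mul_nonneg hC0 h6, mul_nonneg hC h6,
    mul_nonneg (mul_nonneg hC hK) h5]

theorem rich_all (h : Cf c β) :
    ∃ τ θ, 0 ≤ θ ∧ θ < 1 ∧ ∀ k, ∃ C, 0 ≤ C ∧ Rich β τ θ k C := by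
  obtain ⟨τ, θ, C0, h1, h2, h3, h4⟩ := rich_zero h
  refine ⟨τ, θ, h1, h2, fun k => ?_⟩
  induction k with
  | zero => exact ⟨C0, h3, h4⟩
  | succ k ih =>
    obtain ⟨C, hC, hk⟩ := ih
    exact rich_succ h h3 hC h4 hk

/-- Induction on `k` as in `rich_succ`; the new terms are bounded by `En μ k F`, which is bounded
by the estimate of order `k` for `F` itself. -/
theorem apri_all (h : Cf c β) (k : ℕ) : ∃ C, 0 ≤ C ∧ Apri β k C := by
  induction k with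
  | zero => exact apri_zero h
  | succ k ih =>
    obtain ⟨C, hC, hk⟩ := ih
    obtain ⟨K, hK, H⟩ := enk_rhs h k
    refine ⟨C + C * (2 + K * C), by positivity, fun μ F g0 g hμ hF h0 hg e => ?_⟩
    have hμ0 : 0 ≤ μ := zero_le_one.trans hμ
    have hi : 0 ≤ μ⁻¹ := inv_nonneg.2 hμ0
    have h1 : En μ k F ≤ C * (μ⁻¹ * hs (k + 1) univ g0 + ∑ i, hs (k + 1) univ (g i)) :=
      (hk μ F g0 g hμ hF h0 hg e).trans (mul_le_mul_of_nonneg_left (add_le_add
        (mul_le_mul_of_nonneg_left (hs_le_succ _ _ _) hi)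
        (Finset.sum_le_sum fun i _ => hs_le_succ _ _ _)) hC)
    have h2 : ∑ l, En μ k (pd l F) ≤ ∑ l, C * (μ⁻¹ * hs k univ (pd l g0) +
        ∑ i, hs k univ (pd l (g i) + D.bd (dM l β) F i)) := Finset.sum_le_sum fun l _ => by
      refine hk μ _ _ _ hμ (hF.pd l) (h0.pd l) (fun i => ((hg i).pd l).add (h.bd_dM hF l i)) ?_
      rw [dv_add (fun i => (hg i).pd l) (h.bd_dM hF l), ← pd_dv hg, ← add_assoc,
        ← enk_add h0 (Sch.dv hg), ← e, h.pd_L1 μ hF, sub_add_cancel]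
    simp only [Finset.sum_add_distrib, ← Finset.mul_sum] at h2
    have h3 := mul_le_mul_of_nonneg_left (add_le_add
      (mul_le_mul_of_nonneg_left (hs_sum_pd k univ g0) hi) (H μ F g hμ0 hF hg)) hC
    have h4 : En μ 0 F ≤ En μ k F := add_le_add
      (mul_le_mul_of_nonneg_left (hs_mono (Nat.zero_le _) _ _) hμ0)
      (Finset.sum_le_sum fun i _ => hs_mono (Nat.zero_le _) _ _)
    have h5 := mul_nonneg hC (mul_nonneg hi (hs_nonneg (k + 1) univ g0))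
    have h6 := mul_le_mul_of_nonneg_left h1 (mul_nonneg hC hK)
    rw [En_succ]
    nlinarith

end Pool.Agent.Lib.MP_94aef8_gt.D
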