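import Pool.Agent.Lib.MP_94aef8_gt.D.IntM
import Pool.Agent.Lib.MP_94aef8_gt.D.Lim
import Pool.Agent.Lib.MP_94aef8_gt.E.Abs1

/-! An operator that is given by `PP` in finitely many cubes. -/

open scoped ContDiff Topology InnerProductSpace
open Filter Set MeasureTheory Matrix

namespace Pool.Agent.Lib.MP_94aef8_gt.D

/-- Smooth symmetric fields that vanish outside the closed cube of radius 2. -/
structure Adm (w : Tn) : Prop where
  sm : ∀ i j, ContDiff ℝ ∞ fun y => w y i j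
  symm : ∀ y, (w y)ᵀ = w y
  zero : ∀ y, y ∉ Kc 2 → w y = 0

/-- A system of charts: components `loc`, extension by zero `ext`, a partition of unity. -/
structure CSys {V : Type} [NormedAddCommGroup V] [InnerProductSpace ℝ V] (P : V →ₗ[ℝ] V)
    (A : Type) [Fintype A] where
  G : A → Tn
  loc : A → V →ₗ[ℝ] Tn
  ext : A → Tn → V
  χ : A → Fn
  good : ∀ a, Good (G a) (Q 3)
  χsm : ∀ a, ContDiff ℝ ∞ (χ a)
  χz : ∀ a y, y ∉ Kc 1 → χ a y = 0
  sm : ∀ a u, SmT (loc a u) (Q 3)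
  symm : ∀ a u y, (loc a u y)ᵀ = loc a u y
  locP : ∀ a u, ∀ y ∈ Q 3, loc a (P u) y = PP (G a) (loc a u) y
  symP : ∀ a w, Adm w → ∀ y ∈ Q 3, (PP (G a) w y)ᵀ = PP (G a) w y
  ext_add : ∀ a w w', Adm w → Adm w' → ext a (w + w') = ext a w + ext a w'
  ext_smul : ∀ a (c : ℝ) w, Adm w → ext a (c • w) = c • ext a w
  extP : ∀ a w, Adm w → Adm (PP (G a) w) → P (ext a w) = ext a (PP (G a) w)
  part : ∀ u, ∑ a, ext a (fun y => χ a y • loc a u y) = u
  ext_le : ∃ C, ∀ a w, Adm w → ‖ext a w‖ ^ 2 ≤ C * hsM 0 (Q (5 / 2)) w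
  loc_le : ∃ C, ∀ a u, hsM 0 (Q (11 / 4)) (loc a u) ≤ C * ‖u‖ ^ 2

variable {w w' : Tn}

theorem Adm.add (h : Adm w) (h' : Adm w') : Adm (w + w') :=
  ⟨fun i j => (h.sm i j).add (h'.sm i j),
    fun y => by rw [Pi.add_apply, transpose_add, h.symm, h'.symm],
    fun y hy => by rw [Pi.add_apply, h.zero y hy, h'.zero y hy, add_zero]⟩

theorem Adm.smul (c : ℝ) (h : Adm w) : Adm (c • w) :=
  ⟨fun i j => (h.sm i j).const_smul c, fun y => by rw [Pi.smul_apply, transpose_smul, h.symm],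
    fun y hy => by rw [Pi.smul_apply, h.zero y hy, smul_zero]⟩

theorem Adm.sub (h : Adm w) (h' : Adm w') : Adm (w - w') := by
  rw [sub_eq_add_neg, ← neg_one_smul ℝ w']
  exact h.add (h'.smul _)

theorem Adm.so (h : Adm w) (S : Set E4) : SoM S w := fun i j => so_of_sm (h.sm i j) S

/-- `sm_cut_mul` for the entries. -/
theorem adm_cut {χ : Fn} {r : ℝ} (hχ : ContDiff ℝ ∞ χ) (h0 : ∀ y, y ∉ Kc r → χ y = 0) (hr : r ≤ 2)
    (hw : SoM (Kc r) w) (hs : ∀ y ∈ Kc r, (w y)ᵀ = w y) : Adm fun y => χ y • w y := by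
  refine ⟨fun i j => sm_cut_mul hχ h0 (hw i j), fun y => ?_, fun y hy => ?_⟩
  · by_cases hy : y ∈ Kc r
    · rw [transpose_smul, hs y hy]
    · rw [h0 y hy, zero_smul, transpose_zero]
  · rw [h0 y fun hk => hy (Kc_mono hr hk), zero_smul]

/-- `cs_bdd`, `IH.hs_bmul`. -/
theorem hsM_cut {χ : Fn} {r : ℝ} (hχ : ContDiff ℝ ∞ χ) (h0 : ∀ y, y ∉ Kc r → χ y = 0) (j : ℕ) :
    ∃ C, 0 ≤ C ∧ ∀ (R : ℝ) (w : Tn), SoM (Kc R) w →
      hsM j (Q R) (fun y => χ y • w y) ≤ C * hsM j (Q R) w := by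
  obtain ⟨B, hB, h1⟩ := cs_bdd hχ (cs_of_zero h0) j
  refine ⟨5 ^ j * B, by positivity, fun R w hw => ?_⟩
  simp only [hsM, Finset.mul_sum]
  exact Finset.sum_le_sum fun a _ => Finset.sum_le_sum fun b _ =>
    IH.hs_bmul ((so_of_sm hχ _).mul (hw a b)).ih (so_of_sm hχ _) (hw a b).ih fun y _ => h1 y

theorem sys_le_sum {A : Type} [Fintype A] {C : A → ℝ} (h : ∀ a, 0 ≤ C a) (a : A) :
    C a ≤ ∑ b, C b := Finset.single_le_sum (fun b _ => h b) (Finset.mem_univ a)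

namespace CSys

variable {V : Type} [NormedAddCommGroup V] [InnerProductSpace ℝ V] {P : V →ₗ[ℝ] V} {A : Type}
  [Fintype A] (Z : CSys P A)

theorem so (a : A) (u : V) {r : ℝ} (hr : r < 3) : SoM (Kc r) (Z.loc a u) := soM_Kc hr (Z.sm a u)

/-- `co_of_good` for finitely many `a`, `Co.mono`. -/
theorem co (k : ℕ) {r : ℝ} (hr : r < 3) : ∃ C, 3 ≤ C ∧ ∀ a, Co k (Kc r) C (Z.G a) := by
  choose C h1 h2 using fun a => co_of_good (Z.good a) (isCompact_Kc r) (Kc_sub_Q hr) k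
  have h3 : ∀ a, 0 ≤ C a := fun a => le_trans (by norm_num) (h1 a)
  exact ⟨3 + ∑ a, C a, le_add_of_nonneg_right (Finset.sum_nonneg fun a _ => h3 a), fun a =>
    (h2 a).mono le_rfl subset_rfl ((sys_le_sum h3 a).trans (le_add_of_nonneg_left (by norm_num)))⟩

/-- `pp_eq`, `pop_zero`, `good_pop`, `sm_of_zero`, `symP`. -/
theorem admP (a : A) (h : Adm w) : Adm (PP (Z.G a) w) := by
  have h2 : Kc 2 ⊆ Q 3 := Kc_sub_Q (by norm_num)
  have h0 : ∀ y, y ∉ Kc 2 → PP (Z.G a) w y = 0 := fun y hy => by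
    rw [pp_eq]
    exact (pop_zero 3 _ (eventually_of_mem ((isClosed_Kc 2).isOpen_compl.mem_nhds hy)
      h.zero)).eq_of_nhds
  refine ⟨fun i j => sm_of_zero (isClosed_Kc 2) ?_ fun y hy => by rw [h0 y hy, Matrix.zero_apply],
    fun y => ?_, h0⟩
  · rw [pp_eq]
    exact (good_pop (Z.good a) 3 (h.so _) i j).mono h2
  · by_cases hy : y ∈ Kc 2
    · exact Z.symP a w h y (h2 hy)
    · rw [h0 y hy, transpose_zero]

theorem ext_sub (a : A) (h : Adm w) (h' : Adm w') :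
    Z.ext a (w - w') = Z.ext a w - Z.ext a w' := by
  rw [sub_eq_add_neg, ← neg_one_smul ℝ w', Z.ext_add a _ _ h (h'.smul _), Z.ext_smul a _ _ h',
    neg_one_smul, sub_eq_add_neg]

theorem adm_loc (a : A) (u : V) : Adm fun y => Z.χ a y • Z.loc a u y :=
  adm_cut (Z.χsm a) (Z.χz a) (by norm_num) (Z.so a u (by norm_num)) fun y _ => Z.symm a u y

/-- Induction, `pow_succ'`, `Function.iterate_succ_apply'`, `pop_congr_on`. -/
theorem loc_pow (a : A) (u : V) (i : ℕ) :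
    EqOn (Z.loc a ((P ^ i) u)) ((Pop 3 (Z.G a))^[i] (Z.loc a u)) (Q 3) := by
  induction i with
  | zero => exact fun _ _ => rfl
  | succ i ih =>
    intro y hy
    rw [pow_succ', Module.End.mul_apply, Z.locP a _ y hy, pp_eq, Function.iterate_succ_apply']
    exact pop_congr_on 3 _ (isOpen_Q 3) ih hy

theorem ext_pow (a : A) (h : Adm w) (i : ℕ) :
    Adm ((Pop 3 (Z.G a))^[i] w) ∧ (P ^ i) (Z.ext a w) = Z.ext a ((Pop 3 (Z.G a))^[i] w) := by
  induction i with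
  | zero => exact ⟨h, rfl⟩
  | succ i ih =>
    have h1 := Z.admP a ih.1
    have h2 := Z.extP a _ ih.1 h1
    rw [pp_eq] at h1 h2
    rw [pow_succ', Module.End.mul_apply, Function.iterate_succ_apply', ih.2]
    exact ⟨h1, h2⟩

/-- `intK` from `5 / 2` to `11 / 4`, `loc_pow`, `hsM_congr`, `loc_le`. -/
theorem loc_int (m : ℕ) :
    ∃ C, 0 ≤ C ∧ ∀ a u, hsM (2 * m) (Q (5 / 2)) (Z.loc a u) ≤ C * Nm P m u := by
  obtain ⟨C, h3, hC⟩ := Z.co (2 * m + 2) (r := 11 / 4) (by norm_num)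
  obtain ⟨C1, h1, hK⟩ := intK m C (r := 5 / 2) (r' := 11 / 4) (by norm_num)
  obtain ⟨C2, h2⟩ := Z.loc_le
  refine ⟨C1 * max C2 0, by positivity, fun a u =>
    (hK _ _ 3 (hC a) (by rwa [abs_of_pos (by norm_num)]) (Z.so a u (by norm_num))).trans ?_⟩
  rw [mul_assoc, Nm, Finset.mul_sum (Finset.range (m + 1)) _ (max C2 0)]
  refine mul_le_mul_of_nonneg_left (Finset.sum_le_sum fun i _ => ?_) h1
  rw [← hsM_congr (isOpen_Q _) 0 ((Z.loc_pow a u i).mono (Q_mono (by norm_num)))]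
  exact (h2 a _).trans (mul_le_mul_of_nonneg_right (le_max_left _ _) (sq_nonneg _))

/-- `ext_pow`, `ext_le`, `hs_pop_iter` with `k = 0`, `hsM_mono`. -/
theorem ext_up (m : ℕ) :
    ∃ C, 0 ≤ C ∧ ∀ a w, Adm w → Nm P m (Z.ext a w) ≤ C * hsM (2 * m) (Q (5 / 2)) w := by
  obtain ⟨C, h3, hC⟩ := Z.co (2 * m + 2) (r := 5 / 2) (by norm_num)
  choose C1 h1 hK using fun n => hs_pop_iter n 0 C
  obtain ⟨C2, h2⟩ := Z.ext_le
  refine ⟨∑ i ∈ Finset.range (m + 1), max C2 0 * C1 i,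
    Finset.sum_nonneg fun i _ => mul_nonneg (le_max_right _ _) (h1 i), fun a w hw => ?_⟩
  rw [Nm, Finset.sum_mul]
  refine Finset.sum_le_sum fun i hi => ?_
  have h4 := Finset.mem_range.1 hi
  have h5 := hK i _ _ w 3 ((hC a).mono (by omega) subset_rfl le_rfl)
    (by rwa [abs_of_pos (by norm_num)]) (hw.so _)
  rw [(Z.ext_pow a hw i).2, mul_assoc]
  exact (h2 a _ (Z.ext_pow a hw i).1).trans
    ((mul_le_mul_of_nonneg_right (le_max_left _ 0) (hsM_nonneg _ _ _)).trans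
      (mul_le_mul_of_nonneg_left (h5.trans (mul_le_mul_of_nonneg_left
        (hsM_mono (by omega) _ _) (h1 i))) (le_max_right _ _)))

/-- `sob_jsM`, `loc_int`. -/
theorem loc_js {j m : ℕ} (h : j + 4 ≤ 2 * m) :
    ∃ C, 0 ≤ C ∧ ∀ a u, ∀ y ∈ Kc (5 / 2), jsM j (Z.loc a u) y ≤ C * Nm P m u := by
  obtain ⟨C1, h1, hS⟩ := sob_jsM j (r := 5 / 2) (by norm_num)
  obtain ⟨C2, h2, hI⟩ := Z.loc_int m
  refine ⟨C1 * C2, by positivity, fun a u y hy =>
    (hS _ (Z.so a u (by norm_num)) y hy).trans ?_⟩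
  rw [mul_assoc]
  exact mul_le_mul_of_nonneg_left ((hsM_mono h _ _).trans (hI a u)) h1

/-- The global norm is bounded by the local ones: `part`, `Nm_sum`, `ext_up`, `hsM_cut`. -/
theorem Nm_le (m : ℕ) :
    ∃ C, 0 ≤ C ∧ ∀ u, Nm P m u ≤ C * ∑ a, hsM (2 * m) (Q (5 / 2)) (Z.loc a u) := by
  obtain ⟨C1, h1, hE⟩ := Z.ext_up m
  choose C2 h2 hc using fun a => hsM_cut (Z.χsm a) (Z.χz a) (2 * m)
  have h3 : 0 ≤ ∑ a, C2 a := Finset.sum_nonneg fun a _ => h2 a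
  refine ⟨(Finset.univ : Finset A).card * (C1 * ∑ a, C2 a), by positivity, fun u => ?_⟩
  have h4 := Nm_sum P m Finset.univ fun a => Z.ext a fun y => Z.χ a y • Z.loc a u y
  rw [Z.part u] at h4
  refine h4.trans ?_
  rw [mul_assoc, Finset.mul_sum Finset.univ _ (C1 * ∑ a, C2 a)]
  refine mul_le_mul_of_nonneg_left (Finset.sum_le_sum fun a _ => ?_) (Nat.cast_nonneg _)
  rw [mul_assoc]
  exact (hE a _ (Z.adm_loc a u)).trans (mul_le_mul_of_nonneg_left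
    ((hc a _ _ (Z.so a u (by norm_num))).trans
      (mul_le_mul_of_nonneg_right (sys_le_sum h2 a) (hsM_nonneg _ _ _))) h1)

/-- `loc_js` with `j = 0`, `m = 2` for `u n - v`, `tendsto_Nm`. -/
theorem ptw {u : ℕ → V} {v : V}
    (h : ∀ i, Tendsto (fun n => (P ^ i) (u n)) atTop (𝓝 ((P ^ i) v))) (a : A) {y : E4}
    (hy : y ∈ Kc (5 / 2)) : Tendsto (fun n => Z.loc a (u n) y) atTop (𝓝 (Z.loc a v y)) := by
  obtain ⟨C, -, hC⟩ := Z.loc_js (j := 0) (m := 2) le_rfl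
  have h1 : Tendsto (fun n => C * Nm P 2 (u n - v)) atTop (𝓝 0) := by
    have h2 := (tendsto_Nm (P := P) (u := fun n => u n - v) 2 fun i => by
      simpa only [map_sub] using tendsto_sub_nhds_zero_iff.2 (h i)).const_mul C
    rwa [mul_zero] at h2
  refine tendsto_pi_nhds.2 fun i => tendsto_pi_nhds.2 fun j => tendsto_sub_nhds_zero_iff.1 ?_
  have h3 : Tendsto (fun n => √(C * Nm P 2 (u n - v))) atTop (𝓝 0) := by
    simpa only [Real.sqrt_zero] using h1.sqrt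
  refine squeeze_zero_norm (fun n => Real.abs_le_sqrt ?_) h3
  have h4 := (js_le_jsM 0 (Z.loc a (u n - v)) y i j).trans (hC a (u n - v) y hy)
  rw [js_zero, map_sub] at h4
  exact h4

end CSys

end Pool.Agent.Lib.MP_94aef8_gt.D
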