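import Pool.Agent.Lib.MP_94aef8_gt.E.VS
import Pool.Agent.Lib.MP_94aef8_gt.E.Sys

/-!
The system of charts of a closed Riemannian manifold.
-/

open scoped Manifold ContDiff Topology ENNReal InnerProductSpace
open Matrix Filter Set MeasureTheory

namespace Pool.Agent.Lib.MP_94aef8_gt

open D

variable {M : Type} [TopologicalSpace M] [ChartedSpace E4 M]
variable {g : M → Mat} {I : Type} [Fintype I] {Θ : I → E4 → M} {χ : I → M → ℝ} {w : Tn}

theorem Atl.pt3 (A : Atl Θ χ) (a : I) : Pt (Θ a) (Q 3) :=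
  (A.pt a).mono (isOpen_Q 3) (Q_mono (by norm_num))

theorem Atl.inj3 (A : Atl Θ χ) (a : I) : InjOn (Θ a) (Q 3) :=
  (A.inj a).mono (Q_mono (by norm_num))

/-- The cut-off functions in the patches. -/
noncomputable def chiL (Θ : I → E4 → M) (χ : I → M → ℝ) (a : I) : Fn :=
  indicator (Q 4) fun y => χ a (Θ a y)

omit [TopologicalSpace M] [ChartedSpace E4 M] [Fintype I] in
theorem chiL_eq (a : I) {y : E4} (hy : y ∈ Q 4) : chiL Θ χ a y = χ a (Θ a y) :=
  indicator_of_mem hy _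

theorem Atl.chiL_zero (A : Atl Θ χ) (a : I) (y : E4) (hy : y ∉ Kc 1) : chiL Θ χ a y = 0 := by
  by_cases h : y ∈ Q 4
  · rw [chiL_eq a h]
    exact A.zero' a h hy
  · exact indicator_of_notMem h _

theorem Atl.chiL_sm (A : Atl Θ χ) (a : I) : ContDiff ℝ ∞ (chiL Θ χ a) :=
  sm_of_zero (isClosed_Kc 1) (so_Kc (R := 4) (by norm_num)
    (((A.pt a).sm_comp (A.sm a)).congr fun _ hy => chiL_eq a hy)) (A.chiL_zero a)

/-- The components in a patch, as a linear map. -/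
noncomputable def locL (hg : GoodT g) (π : E4 → M) : VS hg →ₗ[ℝ] Tn where
  toFun u := gpull π (VS.val hg u)
  map_add' u v := by rw [map_add, gpull_add]
  map_smul' c u := by rw [map_smul, gpull_smul, RingHom.id_apply]

variable [IsManifold (𝓡 4) ∞ M] [T2Space M]

/-- `P` of an extension by zero is the extension of `PP`. -/
theorem Pt.GP_gext {π : E4 → M} {U K : Set E4} {H : Tn} (hπ : Pt π U) (hi : InjOn π U)
    (hg : GoodT g) (hH : SmT H U) (hK : IsCompact K) (hKU : K ⊆ U)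
    (h0 : ∀ y ∈ U, y ∉ K → H y = 0) :
    GP g (gext π U H) = gext π U (PP (gpull π g) H) := by
  funext x
  by_cases hx : ∃ y ∈ U, π y = x
  · obtain ⟨y, hy, rfl⟩ := hx
    apply hπ.gpull_inj hy
    rw [hπ.GP_eq hy hg (hπ.smG_gext hi hH hK hKU h0), hπ.gpull_gext hi hy, pp_eq]
    exact pop_congr_on 3 _ hπ.isOpen (fun z hz => hπ.gpull_gext hi hz H) hy
  · have hc : IsClosed (π '' K) := (hK.image_of_continuousOn (hπ.continuousOn.mono hKU)).isClosed
    have hx' : x ∉ π '' K := fun ⟨y, hy, e⟩ => hx ⟨y, hKU hy, e⟩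
    have e : gext π U H =ᶠ[𝓝 x] 0 :=
      Filter.mem_of_superset (hc.isOpen_compl.mem_nhds hx') fun z hz => gext_zero h0 hz
    rw [GP_congr g e, GP_zero]
    simp only [gext, dif_neg hx, Pi.zero_apply]

theorem Atl.smG_ext (A : Atl Θ χ) (a : I) (h : Adm w) : SmG (gext (Θ a) (Q 3) w) :=
  (A.pt3 a).smG_gext (A.inj3 a) (fun i j => (h.sm i j).contDiffOn) (isCompact_Kc 2)
    (Kc_sub_Q (by norm_num)) fun y _ hy => h.zero y hy

theorem Atl.GP_ext (A : Atl Θ χ) (hg : GoodT g) (a : I) (h : Adm w) :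
    GP g (gext (Θ a) (Q 3) w) = gext (Θ a) (Q 3) (PP (gpull (Θ a) g) w) :=
  (A.pt3 a).GP_gext (A.inj3 a) hg (fun i j => (h.sm i j).contDiffOn) (isCompact_Kc 2)
    (Kc_sub_Q (by norm_num)) fun y _ hy => h.zero y hy

open Classical in
/-- Extension by zero. -/
noncomputable def Atl.ext (A : Atl Θ χ) (hg : GoodT g) (a : I) (w : Tn) : VS hg :=
  if h : Adm w then
    VS.mk hg (gext (Θ a) (Q 3) w) (A.smG_ext a h) (gext_symm fun y _ => h.symm y)
  else 0

theorem Atl.val_ext (A : Atl Θ χ) (hg : GoodT g) (a : I) (h : Adm w) :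
    VS.val hg (A.ext hg a w) = gext (Θ a) (Q 3) w := by
  rw [Atl.ext, dif_pos h, VS.val_mk]

theorem Atl.loc_ext (A : Atl Θ χ) (hg : GoodT g) (a : I) (h : Adm w) {y : E4} (hy : y ∈ Q 3) :
    locL hg (Θ a) (A.ext hg a w) y = w y := by
  change gpull (Θ a) (VS.val hg (A.ext hg a w)) y = w y
  rw [A.val_ext hg a h, (A.pt3 a).gpull_gext (A.inj3 a) hy]

theorem Atl.symP (A : Atl Θ χ) (hg : GoodT g) (a : I) (h : Adm w) {y : E4} (hy : y ∈ Q 3) :
    (PP (gpull (Θ a) g) w y)ᵀ = PP (gpull (Θ a) g) w y := by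
  rw [← (A.pt3 a).gpull_gext (A.inj3 a) hy (PP (gpull (Θ a) g) w), ← A.GP_ext hg a h]
  exact gpull_symm (GP_symm hg (A.smG_ext a h) (gext_symm fun y _ => h.symm y) _)

theorem Atl.part (A : Atl Θ χ) (hg : GoodT g) (u : VS hg) :
    ∑ a, A.ext hg a (fun y => chiL Θ χ a y • locL hg (Θ a) u y) = u := by
  apply VS.ext
  rw [map_sum]
  refine Eq.trans (Finset.sum_congr rfl fun a _ => ?_)
    (A.decomp (VS.val hg u) (r := 3) (by norm_num) (by norm_num)).symm
  refine (A.val_ext hg a (adm_cut (A.chiL_sm a) (A.chiL_zero a) (by norm_num)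
    (soM_Kc (by norm_num) (u.sm.patch (A.pt a))) fun y _ => gpull_symm (u.symm _))).trans ?_
  exact gext_congr fun y hy => by rw [chiL_eq a (Q_mono (by norm_num) hy)]

variable [CompactSpace M] [MeasurableSpace M] [BorelSpace M]

theorem Atl.ext_le (A : Atl Θ χ) (hg : GoodT g) :
    ∃ C, ∀ a w, Adm w → ‖A.ext hg a w‖ ^ 2 ≤ C * hsM 0 (Q (5 / 2)) w := by
  obtain ⟨C, hC⟩ := A.goodB hg
  obtain ⟨C', hC', hr⟩ := A.rho_bd hg
  refine ⟨C' * C ^ 2, fun a w h => ?_⟩
  have hn := (sm_n0 hg (A.smG_ext a h)).continuous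
  have e : hsM 0 (Q (5 / 2)) w = hsM 0 (Q 3) w :=
    Finset.sum_congr rfl fun i _ => Finset.sum_congr rfl fun j _ =>
      hs_eq_of_zero (isClosed_Kc 2) (Kc_sub_Q (by norm_num)) (Kc_sub_Q (by norm_num))
        (fun y hy => by rw [h.zero y hy]; rfl) 0
  have hI : IHM (Q 3) w := (h.so _).ih
  rw [VS.norm_sq, A.val_ext hg a h, (A.pt3 a).int_eq_of_zero (A.inj3 a) hg hn.measurable
    (fun x hx => by rw [n0, gext_zero (K := Q 3) (fun y hy hy' => (hy' hy).elim) hx,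
      lin_ipM_zero_left]), e, hI.hs_eq, ← integral_const_mul]
  refine setIntegral_mono_on ?_ ((hI.int 0).const_mul _) (meas_Q 3) fun y hy => ?_
  · exact (((((A.pt a).continuousOn_rho hg).mul (hn.comp_continuousOn (A.pt a).continuousOn)).mono
      (Kc_sub_Q (by norm_num))).integrableOn_compact (isCompact_Kc 3)).mono_set (Q_sub_Kc 3)
  · rw [(A.pt3 a).n0_eq hy, (A.pt3 a).gpull_gext (A.inj3 a) hy, mul_assoc]
    exact mul_le_mul (hr a y hy).1 (lin_ipM_le ((hC a).good.pos y hy) ((hC a).ell y hy) _)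
      (lin_ipM_nonneg ((hC a).good.pos y hy) _) hC'.le

omit [T2Space M] in
theorem Atl.loc_le (A : Atl Θ χ) (hg : GoodT g) :
    ∃ C, ∀ a (u : VS hg), hsM 0 (Q (11 / 4)) (locL hg (Θ a) u) ≤ C * ‖u‖ ^ 2 := by
  obtain ⟨C, hC⟩ := A.le_n0 hg
  refine ⟨C, fun a u => ?_⟩
  rw [VS.norm_sq]
  exact (hsM_mono_Q (by norm_num) (soM_Kc (by norm_num) (u.sm.patch (A.pt a))) 0).trans
    (hC _ u.sm a)

/-- The system of charts of an atlas. -/
noncomputable def Atl.csys (A : Atl Θ χ) (hg : GoodT g) : CSys (VS.P hg) I where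
  G a := gpull (Θ a) g
  loc a := locL hg (Θ a)
  ext := A.ext hg
  χ := chiL Θ χ
  good a := hg.patch (A.pt3 a)
  χsm := A.chiL_sm
  χz := A.chiL_zero
  sm a u := u.sm.patch (A.pt3 a)
  symm _ u _ := gpull_symm (u.symm _)
  locP a u _ hy := (A.pt3 a).GP_eq hy hg u.sm
  symP a _ h _ hy := A.symP hg a h hy
  ext_add a w w' h h' := VS.ext <| by
    rw [map_add, A.val_ext hg a h, A.val_ext hg a h', A.val_ext hg a (h.add h'), gext_add]
  ext_smul a c w h := VS.ext <| by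
    rw [map_smul, A.val_ext hg a h, A.val_ext hg a (h.smul c), gext_smul]
  extP a w h h' := VS.ext <| by
    rw [VS.val_P, A.val_ext hg a h, A.val_ext hg a h', A.GP_ext hg a h]
  part := A.part hg
  ext_le := A.ext_le hg
  loc_le := A.loc_le hg

theorem Atl.csys_G (A : Atl Θ χ) (hg : GoodT g) (a : I) : (A.csys hg).G a = gpull (Θ a) g := rfl

theorem Atl.csys_loc (A : Atl Θ χ) (hg : GoodT g) (a : I) (u : VS hg) :
    (A.csys hg).loc a u = gpull (Θ a) (VS.val hg u) := rfl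

theorem Atl.csys_ext (A : Atl Θ χ) (hg : GoodT g) : (A.csys hg).ext = A.ext hg := rfl

theorem Atl.csys_chi (A : Atl Θ χ) (hg : GoodT g) : (A.csys hg).χ = chiL Θ χ := rfl

end Pool.Agent.Lib.MP_94aef8_gt
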