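import Pool.Agent.Lib.MP_94aef8_gt.E.EnK

/-! Approximate solutions on the whole space. -/

open scoped ContDiff Topology
open Filter Set MeasureTheory Matrix

namespace Pool.Agent.Lib.MP_94aef8_gt.D

variable {c μ : ℝ} {β : Tn} {f g : Fn}

theorem tendsto_of_contr {x b : ℕ → ℝ} {θ : ℝ} (h0 : 0 ≤ θ) (h1 : θ < 1) (hx : ∀ n, 0 ≤ x n)
    (hb : Tendsto b atTop (𝓝 0)) (h : ∀ n, x (n + 1) ≤ θ * x n + b n) :
    Tendsto x atTop (𝓝 0) := by
  refine tendsto_order.2 ⟨fun a ha => Eventually.of_forall fun n => ha.trans_le (hx n),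
    fun a ha => ?_⟩
  have h2 : 0 < (1 - θ) * (a / 2) := mul_pos (sub_pos.2 h1) (half_pos ha)
  obtain ⟨N, hN⟩ := eventually_atTop.1 ((tendsto_order.1 hb).2 _ h2)
  have h3 : ∀ m, x (m + N) ≤ θ ^ m * x N + a / 2 := fun m => by
    induction m with
    | zero => simpa using (half_pos ha).le
    | succ m ih =>
      have h4 := h (m + N)
      have h5 := hN (m + N) (Nat.le_add_left N m)
      have h6 := mul_le_mul_of_nonneg_left ih h0
      rw [Nat.add_right_comm, pow_succ]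
      linarith
  have h7 := (tendsto_pow_atTop_nhds_zero_of_lt_one h0 h1).mul_const (x N)
  rw [zero_mul] at h7
  obtain ⟨M, hM⟩ := eventually_atTop.1 ((tendsto_order.1 h7).2 _ (half_pos ha))
  refine eventually_atTop.2 ⟨M + N, fun n hn => ?_⟩
  obtain ⟨m, rfl⟩ := Nat.exists_eq_add_of_le' (le_trans (Nat.le_add_left N M) hn)
  have h8 := hM m (Nat.le_of_add_le_add_right hn)
  linarith [h3 m]

theorem Cf.L1_add (h : Cf c β) (μ : ℝ) (hf : Sch f) (hg : Sch g) (t : ℝ) :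
    L1 μ β (f + t • g) = L1 μ β f + t • L1 μ β g := by
  have e1 : ∀ j, pd j (f + t • g) = pd j f + t • pd j g := fun j => by
    funext y
    rw [pd_add (diffAt hf.sm.contDiffAt) (diffAt (hg.smul t).sm.contDiffAt), pd_smul]
    rfl
  have e2 : D.bd β (f + t • g) = fun i => D.bd β f i + t • D.bd β g i := by
    funext i
    simp only [D.bd, e1, mul_add, mul_smul_comm, Finset.sum_add_distrib, Finset.smul_sum]
  have e3 := L0_sub μ hf hg (-t)
  rw [neg_smul, neg_smul, sub_neg_eq_add, sub_neg_eq_add] at e3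
  rw [L1, L1, L1, e3, e2, dv_add (h.bd hf) fun i => (h.bd hg i).smul t, dv_smul, smul_sub]
  abel

theorem L1_zero (μ : ℝ) (β : Tn) : L1 μ β 0 = 0 := by
  have e : bd β 0 = fun _ => 0 := by
    funext i
    simp only [bd, pd_zero, mul_zero, Finset.sum_const_zero]
  simp only [L1, L0, e, pd_zero, dv_zero, smul_zero, sub_zero]

theorem hs_L0 (hμ : 0 < μ) (k : ℕ) : ∃ K, 0 ≤ K ∧ ∀ z, Sch z →
    hs k univ (L0 μ z) ≤ K * En μ (k + 1) z := by
  refine ⟨2 * μ + 8, by positivity, fun z hz => ?_⟩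
  have h1 := IH.hs_sub k (hz.smul μ).ih (Sch.dv fun i => hz.pd i).ih
  have h2 := hs_sum4 k fun i => ((hz.pd i).pd i).ih
  have h3 := Finset.sum_le_sum fun i (_ : i ∈ Finset.univ) => hs_pd k univ (pd i z) i
  have h4 := mul_le_mul_of_nonneg_left (hs_le_succ k univ z) (mul_pos hμ hμ).le
  have h5 := mul_nonneg hμ.le (hs_nonneg (k + 1) univ z)
  have h6 := mul_nonneg hμ.le
    (Finset.sum_nonneg fun i (_ : i ∈ Finset.univ) => hs_nonneg (k + 1) univ (pd i z))
  rw [hs_smul, dv] at h1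
  rw [L0, dv, En]
  linarith

/-- Choose a function `T` with `L0 μ (T f) = f` for Schwartz `f` (`flat_solve`). Put `z 0 = T f`,
`z (n + 1) = z n - τ • T (L1 μ β (z n))`, `F n = ∑ k < n, τ • z k`. Then
`L0 μ (z n) = f - L1 μ β (F n)` (induction, `L0_sub`, `L1_add`), and `En μ k (z n) → 0` for all `k`
(induction on `k`, `rich_all` with `g = 0`, `tendsto_of_contr`). -/
theorem approx (h : Cf c β) (hμ : 0 < μ) (hf : Sch f) (k : ℕ) {ε : ℝ} (hε : 0 < ε) :
    ∃ F, Sch F ∧ hs k univ (L1 μ β F - f) ≤ ε := by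
  obtain ⟨τ, θ, h0, h1, hR⟩ := rich_all h
  have hT : ∀ u, ∃ y, Sch u → Sch y ∧ L0 μ y = u := fun u => by
    by_cases hu : Sch u
    · exact (flat_solve hμ hu).imp fun _ hy _ => hy
    · exact ⟨0, fun hu' => absurd hu' hu⟩
  choose T hT using hT
  obtain ⟨z, z0, zs⟩ : ∃ z : ℕ → Fn, z 0 = T f ∧ ∀ n, z (n + 1) = z n - τ • T (L1 μ β (z n)) :=
    ⟨fun n => Nat.rec (T f) (fun _ w => w - τ • T (L1 μ β w)) n, rfl, fun _ => rfl⟩
  have hz : ∀ n, Sch (z n) := fun n => by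
    induction n with
    | zero => exact z0 ▸ (hT f hf).1
    | succ n ih => exact zs n ▸ ih.sub ((hT _ (h.l1 μ ih)).1.smul τ)
  have hF : ∀ n, ∃ F, Sch F ∧ L1 μ β F - f = -L0 μ (z n) := fun n => by
    induction n with
    | zero => exact ⟨0, sch_zero, by rw [L1_zero, z0, (hT f hf).2, zero_sub]⟩
    | succ n ih =>
      obtain ⟨F, a1, a2⟩ := ih
      refine ⟨F + τ • z n, a1.add ((hz n).smul τ), ?_⟩
      rw [h.L1_add μ a1 (hz n), zs, L0_sub μ (hz n) (hT _ (h.l1 μ (hz n))).1,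
        (hT _ (h.l1 μ (hz n))).2, neg_sub', ← a2]
      abel
  have hE : ∀ j, Tendsto (fun n => Enp μ j (z n)) atTop (𝓝 0) := fun j => by
    induction j with
    | zero => exact tendsto_const_nhds
    | succ j ih =>
      obtain ⟨C, -, hC⟩ := hR j
      refine tendsto_of_contr (b := fun n => C * Enp μ j (z n)) h0 h1
        (fun n => En_nonneg hμ.le j (z n)) (by simpa using ih.const_mul C) fun n => ?_
      have a := hC μ (z n) _ (fun _ => 0) hμ.le (hz n) (hT _ (h.l1 μ (hz n))).1 (fun _ => sch_zero)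
        (by rw [(hT _ (h.l1 μ (hz n))).2, dv_zero, sub_zero])
      simp only [hs_zero_fn, Finset.sum_const_zero, add_zero, ← zs] at a
      exact a
  obtain ⟨K, -, hK⟩ := hs_L0 hμ k
  have h2 := (hE (k + 2)).const_mul K
  rw [mul_zero] at h2
  obtain ⟨n, hn⟩ := ((tendsto_order.1 h2).2 ε hε).exists
  obtain ⟨F, a1, a2⟩ := hF n
  exact ⟨F, a1, by rw [a2, hs_neg]; exact (hK _ (hz n)).trans hn.le⟩

/-- `approx`, `apri_all` with `g0 = L1 μ β F = (L1 μ β F - f) + f`, `g = 0`, and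
`hs (k + 1) univ F ≤ En μ k F` for `1 ≤ μ`. -/
theorem approx_bd (h : Cf c β) (k : ℕ) : ∃ C, 0 ≤ C ∧ ∀ (μ : ℝ) (f : Fn) (ε : ℝ), 1 ≤ μ → Sch f →
    0 < ε → ∃ F, Sch F ∧ hs k univ (L1 μ β F - f) ≤ ε ∧
      hs (k + 1) univ F ≤ C * μ⁻¹ * hs k univ f + ε := by
  obtain ⟨C, hC, hA⟩ := apri_all h k
  refine ⟨2 * C, by positivity, fun μ f ε hμ hf hε => ?_⟩
  have hμ0 : 0 < μ := by linarith
  obtain ⟨F, a1, a2⟩ := approx h hμ0 hf k (ε := ε / (2 * C + 1)) (by positivity)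
  have e1 : ε / (2 * C + 1) * (2 * C + 1) = ε := div_mul_cancel₀ _ (by positivity)
  have e2 : 0 ≤ ε / (2 * C + 1) := by positivity
  have e3 := mul_nonneg hC e2
  refine ⟨F, a1, by linarith, ?_⟩
  have b1 := hA μ F _ (fun _ => 0) hμ a1 (h.l1 μ a1) (fun _ => sch_zero) (by rw [dv_zero, add_zero])
  have b2 := IH.hs_add k ((h.l1 μ a1).sub hf).ih hf.ih
  rw [sub_add_cancel] at b2
  simp only [hs_zero_fn, Finset.sum_const_zero, add_zero] at b1
  have b3 : hs (k + 1) univ F ≤ En μ k F := add_le_add_left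
    ((hs_mono (Nat.zero_le k) univ F).trans (le_mul_of_one_le_left (hs_nonneg _ _ _) hμ)) _
  have b4 : μ⁻¹ * hs k univ (L1 μ β F) ≤ μ⁻¹ * (2 * (ε / (2 * C + 1)) + 2 * hs k univ f) :=
    mul_le_mul_of_nonneg_left (by linarith) (inv_pos.2 hμ0).le
  have b5 := mul_le_of_le_one_left e2 (inv_le_one_of_one_le₀ hμ)
  have b6 := mul_le_mul_of_nonneg_left b4 hC
  have b7 := mul_le_mul_of_nonneg_left b5 hC
  linarith

end Pool.Agent.Lib.MP_94aef8_gt.D
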