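import Pool.Agent.Lib.MP_94aef8_gt.E.Loc

/-! Approximate solutions with support in a cube. -/

open scoped ContDiff Topology
open Filter Set MeasureTheory Matrix

namespace Pool.Agent.Lib.MP_94aef8_gt.D

/-- Take `Cut 2 (5 / 2) ψ` and `β y = ψ y • (a y - 1)`, `c = C⁻¹`; `sm_cut_mul`, `cs_of_zero`. -/
theorem exists_cf {C : ℝ} {a : Tn} (ha : Co 0 (Kc (5 / 2)) C a) :
    ∃ c β, Cf c β ∧ ∀ y ∈ Kc 2, a y = 1 + β y := by
  obtain ⟨ψ, hψ⟩ := exists_cut (show (2 : ℝ) < 5 / 2 by norm_num)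
  have h0 := inv_le_one_of_one_le₀ ha.one
  refine ⟨C⁻¹, fun y => ψ y • (a y - 1), ⟨inv_pos.2 ha.cpos, h0, fun i j => sm_cut_mul hψ.sm hψ.zero
    ((ha.sm i j).sub (so_of_sm (contDiff_const (c := (1 : Mat) i j)) _)),
    fun i j => cs_of_zero (r := 5 / 2) fun y hy => by simp [hψ.zero y hy], fun y v => ?_⟩,
    fun y hy => by simp [hψ.one y hy]⟩
  have h2 : C⁻¹ * (v ⬝ᵥ v) ≤ v ⬝ᵥ v :=
    mul_le_of_le_one_left (Finset.sum_nonneg fun i _ => mul_self_nonneg _) h0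
  simp only [smul_mulVec, sub_mulVec, one_mulVec, dotProduct_smul, dotProduct_sub, smul_eq_mul]
  by_cases hy : y ∈ Kc (5 / 2)
  · have h1 := (inv_mul_le_iff₀ ha.cpos).2 (ha.ell y hy v)
    linarith [mul_nonneg (hψ.nonneg y) (sub_nonneg.2 h1),
      mul_nonneg (sub_nonneg.2 (hψ.le_one y)) (sub_nonneg.2 h2)]
  · rwa [hψ.zero y hy, zero_mul, add_zero]

/-- The operator `L1` in the form without divergence. -/
theorem L1_apply (μ : ℝ) {c : ℝ} {β : Tn} (h : Cf c β) {F : Fn} (hF : Sch F) (y : E4) :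
    L1 μ β F y = μ * F y - LA (fun z => 1 + β z) F y -
      ∑ i, ∑ j, pd i (fun z => β z i j) y * pd j F y := by
  have h1 : ∀ i, pd i (bd β F i) y =
      ∑ j, (pd i (fun z => β z i j) y * pd j F y + β y i j * pd i (pd j F) y) := fun i =>
    (pd_sum _ (fun j _ => diffAt ((h.sm i j).mul (sm_pd hF.sm j)).contDiffAt) i).trans
      (Finset.sum_congr rfl fun j _ =>
        pd_mul (diffAt (h.sm i j).contDiffAt) (diffAt (sm_pd hF.sm j).contDiffAt) i)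
  simp only [L1, L0, dv, LA, Pi.sub_apply, Pi.smul_apply, Finset.sum_apply, h1, smul_eq_mul,
    Matrix.add_apply, Matrix.one_apply, add_mul, ite_mul, one_mul, zero_mul,
    Finset.sum_add_distrib, Finset.sum_ite_eq, Finset.mem_univ, if_true]
  ring

theorem locq_js {c : ℝ} {β : Tn} (h : Cf c β) {ψ : Fn} (hψ : ContDiff ℝ ∞ ψ)
    (hc : HasCompactSupport ψ) (k : ℕ) : ∃ K, 0 ≤ K ∧ ∀ (F G : Fn) (y : E4), At F y → At G y →
      js k (ψ * G + (ψ * (∑ i, ∑ j, pd i (fun z => β z i j) * pd j F) -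
        cm (fun z => 1 + β z) ψ F)) y ≤ K * js k G y + K * js (k + 1) F y ∧
      js (k + 1) (ψ * F) y ≤ K * js (k + 1) F y := by
  obtain ⟨B, b0, hB⟩ := cs_bdd hψ hc (k + 2)
  choose D d0 hD using fun i j => cs_bdd (h.sm i j) (h.cs i j) (k + 1)
  obtain ⟨B', hB'⟩ := Finite.exists_le fun p : Fin 4 × Fin 4 => D p.1 p.2
  have b1 : 0 ≤ B' := (d0 0 0).trans (hB' (0, 0))
  obtain ⟨K, k0, hK⟩ := js_cm k
  refine ⟨5 * (5 ^ k * B) + 4 * (5 ^ k * B * (256 * (5 ^ k * B'))) + 4 * (K * (2 + 2 * B') * B),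
    by positivity, fun F G y hF hG => ?_⟩
  have hβ : ∀ i j, js (k + 1) (fun z => β z i j) y ≤ B' := fun i j => (hD i j y).trans (hB' (i, j))
  have a0 : At ψ y := hψ.contDiffAt
  have a1 : ∀ i j, At (fun z => β z i j) y := fun i j => (h.sm i j).contDiffAt
  have a2 : ∀ i j, At (pd i (fun z => β z i j) * pd j F) y := fun i j =>
    (at_pd (a1 i j) i).mul (at_pd hF j)
  have a3 := at_sum Finset.univ fun i _ => at_sum Finset.univ fun j _ => a2 i j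
  have a4 : ∀ i j, At (fun z => (1 + β z) i j) y := fun i j => contDiffAt_const.add (a1 i j)
  have a5 := at_cm a4 a0 hF
  have c0 := (js_mono (by omega : k ≤ k + 2) ψ y).trans (hB y)
  have c1 := js_mul_le k a0 hG c0
  have c2 := js_mul_le k a0 a3 c0
  have c3 : ∑ i, ∑ j, js k (pd i (fun z => β z i j) * pd j F) y ≤
      ∑ _i : Fin 4, ∑ _j : Fin 4, 5 ^ k * B' * js (k + 1) F y :=
    Finset.sum_le_sum fun i _ => Finset.sum_le_sum fun j _ =>
      (js_mul_le k (at_pd (a1 i j) i) (at_pd hF j) ((js_pd k _ y i).trans (hβ i j))).trans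
        (mul_le_mul_of_nonneg_left (js_pd k F y j) (by positivity))
  simp only [Finset.sum_const, Finset.card_univ, Fintype.card_fin, nsmul_eq_mul,
    Nat.cast_ofNat] at c3
  have c4 := mul_le_mul_of_nonneg_left ((js_sum16 k a2).trans
    (mul_le_mul_of_nonneg_left c3 (by norm_num))) (show 0 ≤ 5 ^ k * B by positivity)
  have c5 := hK _ ψ F y (2 + 2 * B') B a4 a0 hF (fun i j => by
    have e1 := js_add k (contDiffAt_const (c := (1 : Mat) i j)) (a1 i j)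
    have e2 : (1 : Mat) i j ^ 2 ≤ 1 := by
      rw [Matrix.one_apply]
      split_ifs <;> norm_num
    rw [js_const] at e1
    exact e1.trans (by linarith [js_le_succ k (fun z => β z i j) y, hβ i j])) (hB y)
  have c6 := js_add k (a0.mul hG) ((a0.mul a3).sub a5)
  have c7 := js_sub k (a0.mul a3) a5
  have c8 := js_mul_le (k + 1) a0 hF ((js_le_succ _ ψ y).trans (hB y))
  have g0 := js_nonneg k G y
  have f0 := js_nonneg (k + 1) F y
  rw [pow_succ] at c8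
  have p1 : 0 ≤ 5 ^ k * B := by positivity
  have p2 : 0 ≤ 5 ^ k * B * (5 ^ k * B') := by positivity
  have p3 : 0 ≤ K * (2 + 2 * B') * B := by positivity
  refine ⟨c6.trans ?_, c8.trans ?_⟩
  · change 2 * js k (ψ * G) y + 2 * js k (ψ * _ - _) y ≤ _
    change js k (ψ * _ - _) y ≤ 2 * js k (ψ * _) y + _ at c7
    linarith [mul_nonneg p1 g0, mul_nonneg p2 g0, mul_nonneg p3 g0, mul_nonneg p1 f0]
  · linarith [mul_nonneg p2 f0, mul_nonneg p3 f0]

/-- Take `Cut 1 2 ψ`, `β` from `exists_cf`, `F` from `approx_bd` (with a smaller `ε`) and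
`w = ψ * F`. With `a' = 1 + β` one has `LA a w = LA a' w` everywhere (`LA_zero_off`), and since
`ψ * f = f`,
`μ • w - LA a w - f = ψ * (L1 μ β F - f) + ψ * (∑ i j, pd i (β i j) * pd j F) - cm a' ψ F`
(`LA_mul`, `L1_apply`). Bound the norms over `univ` by `IH.hs_bmul`, `hs_sum16`, `js_cm`, `cs_bdd`
(`js_add`, `js_const` for the entries of `a'`), and pass between `univ` and `Q (5 / 2)` by
`hs_eq_of_zero`. -/
theorem locq {C : ℝ} {a : Tn} (ha : Co 0 (Kc (5 / 2)) C a) (k : ℕ) : ∃ C', 0 ≤ C' ∧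
    ∀ (μ : ℝ) (ε : ℝ) (f : Fn), ∃ w : Fn, 1 ≤ μ → 0 < ε → ContDiff ℝ ∞ f →
      (∀ y, y ∉ Kc 1 → f y = 0) → ContDiff ℝ ∞ w ∧ (∀ y, y ∉ Kc 2 → w y = 0) ∧
        hs k (Q (5 / 2)) (μ • w - LA a w - f) ≤ C' * μ⁻¹ * hs k (Q (5 / 2)) f + ε ∧
        hs (k + 1) (Q (5 / 2)) w ≤ C' * μ⁻¹ * hs k (Q (5 / 2)) f + ε := by
  obtain ⟨ψ, hψ⟩ := exists_cut (show (1 : ℝ) < 2 by norm_num)
  obtain ⟨c, β, h, hβ⟩ := exists_cf ha
  obtain ⟨D, hD0, hD⟩ := approx_bd h k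
  obtain ⟨K, hK0, hK⟩ := locq_js h hψ.sm (cs_of_zero hψ.zero) k
  refine ⟨K * D, by positivity, fun μ ε f => ?_⟩
  by_cases hh : 1 ≤ μ ∧ 0 < ε ∧ ContDiff ℝ ∞ f ∧ ∀ y, y ∉ Kc 1 → f y = 0
  swap
  · exact ⟨0, fun h1 h2 h3 h4 => absurd ⟨h1, h2, h3, h4⟩ hh⟩
  obtain ⟨h1, h2, h3, h4⟩ := hh
  have hf := sch_of_cs h3 (cs_of_zero h4)
  have h5 : 0 < ε / (2 * K + 1) := by positivity
  have h6 : (2 * K + 1) * (ε / (2 * K + 1)) = ε := by field_simp
  obtain ⟨F, hF, e1, e2⟩ := hD μ f _ h1 hf h5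
  generalize ε / (2 * K + 1) = δ at h5 h6 e1 e2
  have hG := (h.l1 μ hF).sub hf
  have hw := Sch.cmul hψ.sm (cs_of_zero hψ.zero) hF
  have z1 : ∀ y, y ∉ Kc 2 → (ψ * F) y = 0 := fun y hy => by
    rw [Pi.mul_apply, hψ.zero y hy, zero_mul]
  have e : μ • (ψ * F) - LA a (ψ * F) - f = ψ * (L1 μ β F - f) +
      (ψ * (∑ i, ∑ j, pd i (fun z => β z i j) * pd j F) - cm (fun z => 1 + β z) ψ F) := by
    funext y
    have a1 : LA a (ψ * F) y = LA (fun z => 1 + β z) (ψ * F) y := by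
      by_cases hy : y ∈ Kc 2
      · simp only [LA, hβ y hy]
      · rw [LA_zero_off (isClosed_Kc 2) _ z1 y hy, LA_zero_off (isClosed_Kc 2) _ z1 y hy]
    have a2 : ψ y * f y = f y := by
      by_cases hy : y ∈ Kc 1
      · rw [hψ.one y hy, one_mul]
      · rw [h4 y hy, mul_zero]
    simp only [Pi.sub_apply, Pi.add_apply, Pi.smul_apply, a1, L1_apply μ h hF, Pi.mul_apply,
      LA_mul _ hψ.sm.contDiffAt hF.sm.contDiffAt, Finset.sum_apply, smul_eq_mul]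
    linear_combination a2
  have z2 : ∀ y, y ∉ Kc 2 → (μ • (ψ * F) - LA a (ψ * F) - f) y = 0 := fun y hy => by
    rw [Pi.sub_apply, Pi.sub_apply, Pi.smul_apply, z1 y hy, LA_zero_off (isClosed_Kc 2) _ z1 y hy,
      h4 y fun h' => hy (Kc_mono one_le_two h'), smul_zero, sub_zero, sub_zero]
  have hs2 : Kc 2 ⊆ Q (5 / 2) := Kc_sub_Q (by norm_num)
  have hE := ih_of_cs (sm_of_zero (isClosed_Kc 2) ((((so_of_sm hw.sm _).smul μ).sub
    (So.la (ha.sm.mono (hs2.trans (Q_sub_Kc _))) (so_of_sm hw.sm _))).sub (so_of_sm h3 _)) z2)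
    (cs_of_zero z2)
  have e3 := hE.hs_le2 hG.ih hF.ih fun y _ => by
    rw [e]
    exact (hK F _ y hF.sm.contDiffAt hG.sm.contDiffAt).1
  have e4 := hw.ih.hs_le1 hF.ih fun y _ => (hK F _ y hF.sm.contDiffAt hG.sm.contDiffAt).2
  have e5 := mul_le_mul_of_nonneg_left e1 hK0
  have e6 := mul_le_mul_of_nonneg_left e2 hK0
  have e7 := mul_nonneg hK0 h5.le
  refine ⟨ψ * F, fun _ _ _ _ => ⟨hw.sm, z1, ?_⟩⟩
  rw [hs_eq_of_zero (isClosed_Kc 2) hs2 (subset_univ _) z2,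
    hs_eq_of_zero (isClosed_Kc 2) hs2 (subset_univ _) z1,
    hs_eq_of_zero (isClosed_Kc 1) (Kc_sub_Q (by norm_num)) (subset_univ _) h4]
  constructor <;> linarith

end Pool.Agent.Lib.MP_94aef8_gt.D
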