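import Pool.Agent.Lib.MP_94aef8_gt.E.LocQ
import Pool.Agent.Lib.MP_94aef8_gt.E.Compl
import Pool.Agent.Lib.MP_94aef8_gt.E.Abs2

/-! The parametrix and the solution of the equations. -/

open scoped ContDiff Topology InnerProductSpace
open Filter Set MeasureTheory Matrix

namespace Pool.Agent.Lib.MP_94aef8_gt.D

/-- `locq` for `a = inv G` (`co_inv`); choose the function `sol` for given `μ`, `ε` and put
`w y = Matrix.of fun i j => sol (fun z => f z i j) y`, which is symmetric because `f` is. The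
entries of the error are `low 3 G w i j + (μ • w i j - LA (inv G) (w i j) - f i j)`; `hs_low`,
`IH.hs_add`, `hsM_le`, `hs_le_hsM`. -/
theorem locM {C : ℝ} {G : Tn} (k : ℕ) (hG : Co (k + 2) (Kc (5 / 2)) C G) (h3 : 3 ≤ C) :
    ∃ C', 0 ≤ C' ∧ ∀ (μ ε : ℝ) (f : Tn), 1 ≤ μ → 0 < ε → Adm f → (∀ y, y ∉ Kc 1 → f y = 0) →
      ∃ w, Adm w ∧ hsM k (Q (5 / 2)) (Pop 3 G w + μ • w - f) ≤
        C' * μ⁻¹ * hsM k (Q (5 / 2)) f + ε := by
  obtain ⟨C₁, H₁⟩ := co_inv (k + 2) C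
  have ha : Co 0 (Kc (5 / 2)) C₁ (inv G) := (H₁ _ _ hG).mono (Nat.zero_le _) subset_rfl le_rfl
  obtain ⟨C₂, hC₂, H₂⟩ := locq ha k
  obtain ⟨C₃, hC₃, H₃⟩ := hs_low k C
  choose sol hsol using H₂
  refine ⟨16 * (32 * C₃ + 2) * C₂, by positivity, fun μ ε f hμ hε hf h0 => ?_⟩
  have hK : 0 < 16 * (32 * C₃ + 2) := by positivity
  have hδ : 0 < ε / (16 * (32 * C₃ + 2)) := div_pos hε hK
  set δ := ε / (16 * (32 * C₃ + 2)) with hδe
  have h1 := fun i j => hsol μ δ (fun z => f z i j) hμ hδ (hf.sm i j)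
    fun y hy => by rw [h0 y hy, Matrix.zero_apply]
  set w : Tn := fun y => Matrix.of fun i j => sol μ δ (fun z => f z i j) y with hw
  have hadm : Adm w := by
    refine ⟨fun i j => (h1 i j).1, fun y => ?_, fun y hy => ?_⟩
    · ext i j
      have e : (fun z => f z j i) = fun z => f z i j := funext fun z => by
        rw [← transpose_apply (f z), hf.symm]
      change sol μ δ (fun z => f z j i) y = sol μ δ (fun z => f z i j) y
      rw [e]
    · ext i j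
      exact (h1 i j).2.1 y hy
  refine ⟨w, hadm, ?_⟩
  have hm : 0 ≤ C₂ * μ⁻¹ := mul_nonneg hC₂ (inv_nonneg.2 (by linarith))
  have h2 : ∀ i j, C₂ * μ⁻¹ * hs k (Q (5 / 2)) (fun z => f z i j) + δ ≤
      C₂ * μ⁻¹ * hsM k (Q (5 / 2)) f + δ := fun i j =>
    add_le_add_left (mul_le_mul_of_nonneg_left (hs_le_hsM k _ f i j) hm) δ
  set X := C₂ * μ⁻¹ * hsM k (Q (5 / 2)) f + δ with hX
  have h4 : hsM (k + 1) (Q (5 / 2)) w ≤ 16 * X := hsM_le fun i j => (h1 i j).2.2.2.trans (h2 i j)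
  have h5 : hsM k (Q (5 / 2)) (Pop 3 G w + μ • w - f) ≤ 16 * ((32 * C₃ + 2) * X) := by
    refine hsM_le fun i j => ?_
    obtain ⟨l1, l2⟩ := H₃ (5 / 2) G w 3 hG (by rwa [abs_of_pos three_pos]) (hadm.so _) i j
    have l3 := (h1 i j).2.2.1.trans (h2 i j)
    have s1 : So (Kc (5 / 2)) (sol μ δ fun z => f z i j) := so_of_sm (h1 i j).1 _
    have l4 := IH.hs_add k l1.ih (((s1.smul μ).sub (So.la ha.sm s1)).sub (hf.so _ i j)).ih
    have e : (fun z => (Pop 3 G w + μ • w - f) z i j) = low 3 G w i j +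
        (μ • sol μ δ (fun z => f z i j) - LA (inv G) (sol μ δ fun z => f z i j) -
          fun z => f z i j) := by
      funext z
      change Pop 3 G w z i j + μ * sol μ δ (fun z => f z i j) z - f z i j =
        Pop 3 G w z i j + LA (inv G) (sol μ δ fun z => f z i j) z +
          (μ * sol μ δ (fun z => f z i j) z - LA (inv G) (sol μ δ fun z => f z i j) z - f z i j)
      ring
    have l5 := mul_le_mul_of_nonneg_left h4 hC₃
    rw [e]
    linarith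
  refine h5.trans_eq ?_
  rw [hX, hδe]
  field_simp

variable {V : Type} [NormedAddCommGroup V] [InnerProductSpace ℝ V] {P : V →ₗ[ℝ] V} {A : Type}
  [Fintype A]

/-- With `f a = χ a • loc a f` and `w a` from `locM (2 * m)`, put `u = ∑ a, ext a (w a)`. Then
`P u + μ • u - f = ∑ a, ext a (PP (G a) (w a) + μ • w a - f a)`; `Nm_sum`, `ext_up`, `hsM_cut`,
`loc_int` give the bound `K μ⁻¹ Nm P m f + K ε`. -/
theorem CSys.prm (Z : CSys P A) : Prm P := by
  intro m θ hθ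
  obtain ⟨C, h3, hC⟩ := Z.co (2 * m + 2) (r := 5 / 2) (by norm_num)
  choose C' hC' H' using fun a => locM (2 * m) (hC a) h3
  obtain ⟨E, hE, HE⟩ := Z.ext_up m
  choose D hD HD using fun a => hsM_cut (Z.χsm a) (Z.χz a) (2 * m)
  obtain ⟨L, hL, HL⟩ := Z.loc_int m
  set n : ℝ := (Fintype.card A : ℝ) with hn
  have hn0 : 0 ≤ n := Nat.cast_nonneg _
  set K := n * ∑ a, E * (C' a * (D a * L)) with hK
  refine ⟨max 1 (K / θ), fun μ hμ f ε hε => ?_⟩
  have hμ1 : 1 ≤ μ := (le_max_left _ _).trans hμ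
  have hμ0 : 0 < μ := one_pos.trans_le hμ1
  have hμ2 : K * μ⁻¹ ≤ θ := by
    rw [← div_eq_mul_inv, div_le_iff₀ hμ0, mul_comm]
    exact (div_le_iff₀ hθ).1 ((le_max_right _ _).trans hμ)
  have hq : 0 < n * (n * E) + 1 := by positivity
  have hδ : 0 < ε / (n * (n * E) + 1) := div_pos hε hq
  set δ := ε / (n * (n * E) + 1) with hδe
  choose w hw Hw using fun a => H' a μ δ _ hμ1 hδ (Z.adm_loc a f)
    fun y hy => by rw [Z.χz a y hy, zero_smul]
  have hp : ∀ a, Adm (Pop 3 (Z.G a) (w a)) := fun a => pp_eq ▸ Z.admP a (hw a)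
  have hs : ∀ a, Adm (Pop 3 (Z.G a) (w a) + μ • w a) := fun a => (hp a).add ((hw a).smul μ)
  refine ⟨∑ a, Z.ext a (w a), ?_⟩
  have e : P (∑ a, Z.ext a (w a)) + μ • ∑ a, Z.ext a (w a) - f = ∑ a, Z.ext a
      (Pop 3 (Z.G a) (w a) + μ • w a - fun y => Z.χ a y • Z.loc a f y) := by
    have e1 : ∀ a, Z.ext a (Pop 3 (Z.G a) (w a) + μ • w a - fun y => Z.χ a y • Z.loc a f y) =
        P (Z.ext a (w a)) + μ • Z.ext a (w a) - Z.ext a fun y => Z.χ a y • Z.loc a f y :=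
      fun a => by
        rw [Z.ext_sub a (hs a) (Z.adm_loc a f), Z.ext_add a _ _ (hp a) ((hw a).smul μ),
          Z.ext_smul a μ _ (hw a), ← pp_eq, ← Z.extP a _ (hw a) (Z.admP a (hw a))]
    simp only [e1]
    rw [Finset.sum_sub_distrib, Finset.sum_add_distrib, Z.part, map_sum, Finset.smul_sum]
  have h1 : ∀ a, Nm P m (Z.ext a
      (Pop 3 (Z.G a) (w a) + μ • w a - fun y => Z.χ a y • Z.loc a f y)) ≤
      E * (C' a * (D a * L)) * (μ⁻¹ * Nm P m f) + E * δ := fun a => by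
    have a1 := (HD a (5 / 2) _ (Z.so a f (by norm_num))).trans
      (mul_le_mul_of_nonneg_left (HL a f) (hD a))
    have a2 := (Hw a).trans (add_le_add_left
      (mul_le_mul_of_nonneg_left a1 (mul_nonneg (hC' a) (inv_nonneg.2 hμ0.le))) δ)
    refine ((HE a _ ((hs a).sub (Z.adm_loc a f))).trans
      (mul_le_mul_of_nonneg_left a2 hE)).trans_eq ?_
    ring
  have h2 := (Nm_sum P m Finset.univ _).trans
    (mul_le_mul_of_nonneg_left (Finset.sum_le_sum fun a _ => h1 a) (Nat.cast_nonneg _))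
  rw [Finset.sum_add_distrib, ← Finset.sum_mul, Finset.sum_const, nsmul_eq_mul,
    Finset.card_univ, ← hn, mul_add, ← mul_assoc, ← hK, ← mul_assoc] at h2
  have h4 := mul_le_mul_of_nonneg_right hμ2 (Nm_nonneg P m f)
  have h5 : (n * (n * E) + 1) * δ = ε := by
    rw [hδe]
    field_simp
  rw [e]
  nlinarith

/-- `P + lam` is onto. -/
theorem CSys.onto (Z : CSys P A) {c : ℝ} (low : ∀ u, -c * ‖u‖ ^ 2 ≤ ⟪P u, u⟫_ℝ) {lam : ℝ}
    (hl : c + 1 ≤ lam) (f : V) : ∃ u, P u + lam • u = f :=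
  abs_onto low Z.compl Z.prm hl f

/-- `P` is onto on an invariant subspace with an a priori estimate. -/
theorem CSys.solve (Z : CSys P A) {c Λ : ℝ} (low : ∀ u, -c * ‖u‖ ^ 2 ≤ ⟪P u, u⟫_ℝ)
    (sy : ∀ u v, ⟪P u, v⟫_ℝ = ⟪u, P v⟫_ℝ) (W : Submodule ℝ V) (hP : ∀ u ∈ W, P u ∈ W)
    (hT : ∀ u, P u + (c + 1) • u ∈ W → u ∈ W)
    (hW : ∀ (u : ℕ → V) (v : V), (∀ n, u n ∈ W) → (∀ a, ∀ y ∈ Kc (5 / 2),
      Tendsto (fun n => Z.loc a (u n) y) atTop (𝓝 (Z.loc a v y))) → v ∈ W)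
    (hap : ∀ u ∈ W, ‖u‖ ^ 2 ≤ Λ * ∑ i ∈ Finset.range 5, ‖(P ^ (i + 1)) u‖ ^ 2)
    {f : V} (hf : f ∈ W) : ∃ u ∈ W, P u = f :=
  abs_solve low le_rfl sy (Z.onto low le_rfl) Z.compl W hP hT
    (fun u v hu h => hW u v hu fun a _ hy => Z.ptw h a hy) hap hf

end Pool.Agent.Lib.MP_94aef8_gt.D
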