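import Pool.Agent.Lib.MP_94aef8_gt.E.Inst
import Pool.Agent.Lib.MP_94aef8_gt.E.Par

/-!
Solution of the equations `P h + lam h = f` and `P h = f`.
-/

open scoped Manifold ContDiff Topology ENNReal InnerProductSpace
open Matrix Filter Set MeasureTheory

namespace Pool.Agent.Lib.MP_94aef8_gt

open D

variable {M : Type} [TopologicalSpace M] [T2Space M] [CompactSpace M] [ChartedSpace E4 M]
  [IsManifold (𝓡 4) ∞ M] [MeasurableSpace M] [BorelSpace M]

/-- `P + lam` is onto for large `lam`. -/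
theorem thmE0 {g : M → Mat} (hg : GoodT g) : ∃ l0 : ℝ, ∀ lam, l0 ≤ lam → ∀ f, InvT ∅ f →
    ∃ h, InvT ∅ h ∧ ∀ x, GP g h x + lam • h x = f x := by
  obtain ⟨I, _, Θ, χ, A, -⟩ := exists_atl (fun _ : M => univ) fun _ => univ_mem
  obtain ⟨c, hc⟩ := VS.exists_low hg
  refine ⟨c + 1, fun lam hl f hf => ?_⟩
  obtain ⟨u, hu⟩ := (A.csys hg).onto hc hl (VS.mk hg f hf.smooth hf.symm)
  exact ⟨_, u.invT, fun x => congrFun (congrArg (VS.val hg) hu) x⟩

omit [T2Space M] in
/-- A solution of `P u + lam u = f` with invariant `f` is invariant. -/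
theorem VS.invT_of_eq {g : M → Mat} {hg : GoodT g} {S : Set (M → M)} (hS : ∀ F ∈ S, IsoM g F)
    {c lam : ℝ} (low : ∀ u : VS hg, -c * ‖u‖ ^ 2 ≤ ⟪VS.P hg u, u⟫_ℝ) (hl : c < lam) {u : VS hg}
    (hu : InvT S (VS.val hg (VS.P hg u + lam • u))) : InvT S (VS.val hg u) := by
  refine ⟨u.sm, u.symm, fun F hF x => ?_⟩
  let v : VS hg := VS.mk hg (gpull F (VS.val hg u)) (u.sm.gpull (hS F hF).pt)
    fun x => gpull_symm (u.symm _)
  have e : VS.P hg v + lam • v = VS.P hg u + lam • u := by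
    apply VS.ext
    rw [← funext (hu.inv F hF), map_add, map_add, map_smul, map_smul, gpull_add, gpull_smul,
      VS.val_P, VS.val_P, VS.val_mk, (hS F hF).GP hg u.sm]
  have e' : VS.P hg (v - u) + lam • (v - u) = 0 := by
    rw [map_sub, smul_sub, sub_add_sub_comm, e, sub_self]
  have h0 := low_norm low lam (v - u)
  rw [e', norm_zero] at h0
  have h1 : ‖v - u‖ ≤ 0 := nonpos_of_mul_nonpos_right h0 (sub_pos.2 hl)
  exact congrFun (congrArg (VS.val hg) (sub_eq_zero.1 (norm_le_zero_iff.1 h1))) x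

/-- `P` is onto the invariant tensors if it satisfies an a priori estimate there. -/
theorem thmE {g : M → Mat} (hg : GoodT g) {S : Set (M → M)} (hS : ∀ F ∈ S, IsoM g F) {Λ : ℝ}
    (hap : ∀ h, InvT S h → ∫ x, n0 g h x ∂volT g ≤
      Λ * ∑ i ∈ Finset.range 5, ∫ x, n0 g ((GP g)^[i + 1] h) x ∂volT g)
    {f : M → Mat} (hf : InvT S f) : ∃ h, InvT S h ∧ GP g h = f := by
  obtain ⟨I, _, Θ, χ, A, -⟩ := exists_atl (fun _ : M => univ) fun _ => univ_mem
  obtain ⟨c, hc⟩ := VS.exists_low hg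
  obtain ⟨u, hu, e⟩ := (A.csys hg).solve (Λ := Λ) hc VS.P_symm ((invSub S).comap (VS.val hg))
    (fun u hu => InvT.GP hu hg hS) (fun u hu => VS.invT_of_eq hS hc (lt_add_one c) hu)
    (fun u v hu h => invT_of_limit (l := atTop) hu v.sm fun x => by
      obtain ⟨a, y, hy, rfl⟩ := A.cover x
      have hy4 : y ∈ Q 4 := Kc_sub_Q (by norm_num) hy
      have hc : Continuous (unp (Θ a) y) :=
        (continuous_const.matrix_mul continuous_id).matrix_mul continuous_const
      have := (hc.tendsto _).comp (h a y (Kc_mono (by norm_num) hy))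
      simpa only [Function.comp_def, Atl.csys_loc, (A.pt a).unp_gpull hy4] using this)
    (fun u hu => by simpa only [VS.norm_sq, VS.val_pow] using hap _ hu)
    (f := VS.mk hg f hf.smooth hf.symm) hf
  exact ⟨_, hu, congrArg (VS.val hg) e⟩

end Pool.Agent.Lib.MP_94aef8_gt
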