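import Pool.Agent.Lib.MP_94aef8_gt.D.Hs

/-! Schwartz functions and the equation `μ y - Δ y = f`. -/

open scoped ContDiff Topology SchwartzMap LineDeriv Laplacian FourierTransform
open Filter Set MeasureTheory Matrix

namespace Pool.Agent.Lib.MP_94aef8_gt.D

/-- Schwartz functions. -/
def Sch (f : Fn) : Prop := ∃ F : 𝓢(E4, ℝ), (F : Fn) = f

/-- The divergence. -/
noncomputable def dv (g : Fin 4 → Fn) : Fn := ∑ i, pd i (g i)

/-- The operator `μ - Δ`. -/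
noncomputable def L0 (μ : ℝ) (z : Fn) : Fn := μ • z - dv fun i => pd i z

variable {f g β : Fn}

theorem Sch.sm (hf : Sch f) : ContDiff ℝ ∞ f := by
  obtain ⟨F, rfl⟩ := hf
  exact F.smooth ⊤

theorem sch_zero : Sch 0 := ⟨0, rfl⟩

theorem Sch.add (hf : Sch f) (hg : Sch g) : Sch (f + g) := by
  obtain ⟨F, rfl⟩ := hf
  obtain ⟨G, rfl⟩ := hg
  exact ⟨F + G, rfl⟩

theorem Sch.sub (hf : Sch f) (hg : Sch g) : Sch (f - g) := by
  obtain ⟨F, rfl⟩ := hf
  obtain ⟨G, rfl⟩ := hg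
  exact ⟨F - G, rfl⟩

theorem Sch.neg (hf : Sch f) : Sch (-f) := by
  obtain ⟨F, rfl⟩ := hf
  exact ⟨-F, rfl⟩

theorem Sch.smul (c : ℝ) (hf : Sch f) : Sch (c • f) := by
  obtain ⟨F, rfl⟩ := hf
  exact ⟨c • F, rfl⟩

theorem Sch.sum {ι : Type} (s : Finset ι) {F : ι → Fn} (h : ∀ i ∈ s, Sch (F i)) :
    Sch (∑ i ∈ s, F i) := Finset.sum_induction F Sch (fun _ _ => Sch.add) sch_zero h

/-- See `flat_pd` in `Lib/MP_40de08_gt/Flat` (graded repository). -/
theorem Sch.pd (hf : Sch f) (i : Fin 4) : Sch (pd i f) := by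
  obtain ⟨F, rfl⟩ := hf
  exact ⟨∂_{bas i} F, rfl⟩

/-- `HasCompactSupport.toSchwartzMap`. -/
theorem sch_of_cs (hf : ContDiff ℝ ∞ f) (hc : HasCompactSupport f) : Sch f := ⟨hc.toSchwartzMap hf, rfl⟩

theorem Sch.cmul (hβ : ContDiff ℝ ∞ β) (hc : HasCompactSupport β) (hf : Sch f) : Sch (β * f) :=
  sch_of_cs (hβ.mul hf.sm) hc.mul_right

theorem Sch.int_mul (hf : Sch f) (hg : Sch g) : Integrable fun y => f y * g y := by
  obtain ⟨F, rfl⟩ := hf
  obtain ⟨G, rfl⟩ := hg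
  exact (F.memLp 2).integrable_mul (G.memLp 2)

/-- Induction on the order. -/
theorem Sch.ih (hf : Sch f) : IH univ f := by
  refine ⟨MeasurableSet.univ, so_of_sm hf.sm _, fun j => integrableOn_univ.2 ?_⟩
  have h0 : ∀ {f : Fn}, Sch f → Integrable fun y => f y ^ 2 := fun hf => by
    simpa only [sq] using hf.int_mul hf
  induction j generalizing f with
  | zero => exact h0 hf
  | succ j ih => exact (h0 hf).add (integrable_finsetSum _ fun i _ => ih (hf.pd i))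

/-- `SchwartzMap.integral_mul_lineDerivOp_right_eq_neg_left`. -/
theorem Sch.ibp (hf : Sch f) (hg : Sch g) (i : Fin 4) :
    ∫ y, f y * MP_94aef8_gt.pd i g y = -∫ y, MP_94aef8_gt.pd i f y * g y := by
  obtain ⟨F, rfl⟩ := hf
  obtain ⟨G, rfl⟩ := hg
  exact SchwartzMap.integral_mul_lineDerivOp_right_eq_neg_left (μ := volume) F G (bas i)

theorem Sch.dv {g : Fin 4 → Fn} (hg : ∀ i, Sch (g i)) : Sch (dv g) :=
  Sch.sum _ fun i _ => (hg i).pd i

theorem Sch.l0 (μ : ℝ) (hf : Sch f) : Sch (L0 μ f) := (hf.smul μ).sub (Sch.dv fun i => hf.pd i)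

/-- The weak form of the divergence. -/
theorem int_dv {g : Fin 4 → Fn} (hg : ∀ i, Sch (g i)) (hf : Sch f) :
    ∫ y, dv g y * f y = -∫ y, ∑ i, g i y * pd i f y := by
  have e : ∀ y, dv g y * f y = ∑ i, pd i (g i) y * f y := fun y => by
    rw [dv, Finset.sum_apply, Finset.sum_mul]
  simp only [e]
  rw [integral_finsetSum _ fun i _ => ((hg i).pd i).int_mul hf,
    integral_finsetSum _ fun i _ => (hg i).int_mul (hf.pd i), ← Finset.sum_neg_distrib]
  exact Finset.sum_congr rfl fun i _ => by rw [(hg i).ibp hf i, neg_neg]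

theorem sch_diff (hf : Sch f) (y : E4) : DifferentiableAt ℝ f y := diffAt hf.sm.contDiffAt

theorem dv_add {g g' : Fin 4 → Fn} (hg : ∀ i, Sch (g i)) (hg' : ∀ i, Sch (g' i)) :
    dv (fun i => g i + g' i) = dv g + dv g' := by
  funext y
  simp only [dv, Pi.add_apply, Finset.sum_apply, ← Finset.sum_add_distrib]
  exact Finset.sum_congr rfl fun i _ => pd_add (sch_diff (hg i) y) (sch_diff (hg' i) y) i

theorem dv_smul (c : ℝ) (g : Fin 4 → Fn) : dv (fun i => c • g i) = c • dv g := by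
  simp only [dv, pd_smul, Finset.smul_sum]

theorem dv_zero : dv (fun _ => 0) = 0 := by
  simp only [dv, pd_zero, Finset.sum_const_zero]

theorem pd_dv {g : Fin 4 → Fn} (hg : ∀ i, Sch (g i)) (l : Fin 4) :
    pd l (dv g) = dv fun i => pd l (g i) := by
  funext y
  rw [dv, pd_sum _ (fun i _ => sch_diff ((hg i).pd i) y) l, dv, Finset.sum_apply]
  exact Finset.sum_congr rfl fun i _ => pd_comm (hg i).sm.contDiffAt l i

theorem L0_sub (μ : ℝ) (hf : Sch f) (hg : Sch g) (t : ℝ) :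
    L0 μ (f - t • g) = L0 μ f - t • L0 μ g := by
  have e : (fun i => pd i (f - t • g)) = fun i => pd i f + (-t) • pd i g := by
    funext i y
    rw [pd_sub (sch_diff hf y) (sch_diff (hg.smul t) y), pd_smul, neg_smul, sub_eq_add_neg]
    rfl
  rw [L0, L0, L0, e, dv_add (fun i => hf.pd i) fun i => (hg.pd i).smul _, dv_smul]
  module

theorem pd_L0 (μ : ℝ) (hf : Sch f) (l : Fin 4) : pd l (L0 μ f) = L0 μ (pd l f) := by
  have e : (fun i => pd l (pd i f)) = fun i => pd i (pd l f) :=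
    funext fun i => funext fun y => pd_comm hf.sm.contDiffAt l i
  funext y
  rw [L0, pd_sub (sch_diff (hf.smul μ) y) (sch_diff (Sch.dv fun i => hf.pd i) y), pd_smul,
    pd_dv fun i => hf.pd i, e]
  rfl

theorem sch_complex (ε : ℝ) (Φ : 𝓢(E4, ℂ)) : ∃ Ψ : 𝓢(E4, ℂ), Ψ - ε ^ 2 • Δ Ψ = Φ := by
  set c : ℝ := ε * (2 * Real.pi) with hc
  let m : E4 → ℝ := fun ξ => (1 + ‖c • ξ‖ ^ 2) ^ (-1 : ℝ)
  have hm : m.HasTemperateGrowth :=
    (Function.hasTemperateGrowth_one_add_norm_sq_rpow E4 (-1)).comp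
      (c • ContinuousLinearMap.id ℝ E4).hasTemperateGrowth
  have hn : (fun ξ : E4 => ‖ξ‖ ^ 2).HasTemperateGrowth := Function.hasTemperateGrowth_norm_sq E4
  refine ⟨SchwartzMap.fourierMultiplierCLM ℂ m Φ, ?_⟩
  rw [SchwartzMap.laplacian_eq_fourierMultiplierCLM,
    SchwartzMap.fourierMultiplierCLM_fourierMultiplierCLM_apply hn hm, smul_smul]
  have key : SchwartzMap.smulLeftCLM ℂ m (𝓕 Φ) - (ε ^ 2 * -(2 * Real.pi) ^ 2) •
      SchwartzMap.smulLeftCLM ℂ ((fun ξ : E4 => ‖ξ‖ ^ 2) * m) (𝓕 Φ) = 𝓕 Φ := by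
    ext ξ
    rw [_root_.sub_apply, _root_.smul_apply, SchwartzMap.smulLeftCLM_apply_apply hm,
      SchwartzMap.smulLeftCLM_apply_apply (hn.mul hm), smul_smul, ← sub_smul]
    have h1 : m ξ - ε ^ 2 * -(2 * Real.pi) ^ 2 * ((fun ξ : E4 => ‖ξ‖ ^ 2) * m) ξ = 1 := by
      have h2 : ‖c • ξ‖ ^ 2 = c ^ 2 * ‖ξ‖ ^ 2 := by
        rw [norm_smul, mul_pow, Real.norm_eq_abs, sq_abs]
      have h3 : m ξ = (1 + c ^ 2 * ‖ξ‖ ^ 2)⁻¹ := by
        simp only [m, h2, Real.rpow_neg_one]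
      have h4 : (0 : ℝ) < 1 + c ^ 2 * ‖ξ‖ ^ 2 := by positivity
      rw [Pi.mul_apply, h3]
      field_simp
      rw [hc]
      ring
    rw [h1, one_smul]
  have h5 := congrArg (FourierTransform.fourierInvCLM ℝ 𝓢(E4, ℂ)) key
  rw [map_sub, map_smul] at h5
  simp only [FourierTransform.fourierInvCLM_apply, FourierTransform.fourierInv_fourier_eq] at h5
  exact h5

theorem sch_re (Ψ : 𝓢(E4, ℂ)) (v : E4) :
    ∂_{v} (SchwartzMap.postcompCLM Complex.reCLM Ψ)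
      = SchwartzMap.postcompCLM Complex.reCLM (∂_{v} Ψ) := by
  ext x
  rw [SchwartzMap.lineDerivOp_apply_eq_fderiv, SchwartzMap.postcompCLM_apply,
    SchwartzMap.lineDerivOp_apply_eq_fderiv]
  have h : (SchwartzMap.postcompCLM Complex.reCLM Ψ : E4 → ℝ) = Complex.reCLM ∘ Ψ := by
    funext y
    exact SchwartzMap.postcompCLM_apply _ _ _
  rw [h, (Complex.reCLM.hasFDerivAt.comp x (Ψ.hasFDerivAt x)).fderiv]
  rfl

/-- Port `flat_complex`, `flat_re`, `flat_solve` of `Lib/MP_40de08_gt/Flat` (graded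
repository) with `ε ^ 2 = μ⁻¹` and the right side `μ⁻¹ • f`; the complex Schwartz map is
`SchwartzMap.postcompCLM Complex.ofRealCLM F`. -/
theorem flat_solve {μ : ℝ} (hμ : 0 < μ) (hf : Sch f) : ∃ y, Sch y ∧ L0 μ y = f := by
  obtain ⟨Φ, hΦ⟩ := hf.smul μ⁻¹
  obtain ⟨Ψ, hΨ⟩ := sch_complex √μ⁻¹ (SchwartzMap.postcompCLM Complex.ofRealCLM Φ)
  rw [Real.sq_sqrt (inv_pos.2 hμ).le] at hΨ
  let F : 𝓢(E4, ℝ) := SchwartzMap.postcompCLM Complex.reCLM Ψ
  have hb : ∀ i, EuclideanSpace.basisFun (Fin 4) ℝ i = bas i := fun i => by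
    simp [bas]
  have hF : ∀ p, F p - μ⁻¹ * ∑ i, (∂_{bas i} (∂_{bas i} F) : 𝓢(E4, ℝ)) p = Φ p := by
    intro p
    have h1 := congrArg (fun G : 𝓢(E4, ℂ) => (G p).re) hΨ
    rw [SchwartzMap.laplacian_eq_sum (EuclideanSpace.basisFun (Fin 4) ℝ)] at h1
    simp only [hb, _root_.sub_apply, _root_.smul_apply, _root_.sum_apply,
      Complex.sub_re, Complex.smul_re, Complex.re_sum, smul_eq_mul] at h1
    simp only [F, sch_re, SchwartzMap.postcompCLM_apply, Complex.reCLM_apply]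
    exact h1
  refine ⟨F, ⟨F, rfl⟩, funext fun p => ?_⟩
  have h2 : F p - μ⁻¹ * ∑ i, pd i (pd i F) p = μ⁻¹ * f p := (hF p).trans (congrFun hΦ p)
  rw [L0, dv, Pi.sub_apply, Finset.sum_apply, Pi.smul_apply, smul_eq_mul,
    ← mul_inv_cancel_left₀ hμ.ne' (f p), ← h2, mul_sub, mul_inv_cancel_left₀ hμ.ne']

end Pool.Agent.Lib.MP_94aef8_gt.D
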