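import Pool.Agent.Lib.MP_94aef8_gt.C.Div

/-!
The smooth symmetric tensor fields with the `L²` product of a metric.
-/

open scoped Manifold ContDiff Topology ENNReal InnerProductSpace
open Matrix Filter Set MeasureTheory

namespace Pool.Agent.Lib.MP_94aef8_gt

variable {M : Type} [TopologicalSpace M] [ChartedSpace E4 M]
variable {g : M → Mat}

/-- The smooth symmetric tensor fields; the metric fixes the inner product. -/
def VS (_hg : GoodT g) : Type := invSub (∅ : Set (M → M))

namespace VS

variable {hg : GoodT g}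

instance : AddCommGroup (VS hg) := inferInstanceAs (AddCommGroup (invSub (∅ : Set (M → M))))

instance : Module ℝ (VS hg) := inferInstanceAs (Module ℝ (invSub (∅ : Set (M → M))))

/-- The tensor field, as a linear map. -/
def val (hg : GoodT g) : VS hg →ₗ[ℝ] M → Mat := (invSub (∅ : Set (M → M))).subtype

/-- A smooth symmetric field as an element. -/
def mk (hg : GoodT g) (h : M → Mat) (hh : SmG h) (hs : ∀ x, (h x).IsSymm) : VS hg :=
  (⟨h, hh, hs, fun _ hF => hF.elim⟩ : invSub (∅ : Set (M → M)))

@[simp]
theorem val_mk (h : M → Mat) (hh : SmG h) (hs : ∀ x, (h x).IsSymm) :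
    val hg (mk hg h hh hs) = h := rfl

theorem invT (u : VS hg) : InvT ∅ (val hg u) := u.2

theorem sm (u : VS hg) : SmG (val hg u) := u.invT.smooth

theorem symm (u : VS hg) (x : M) : (val hg u x).IsSymm := u.invT.symm x

theorem ext {u v : VS hg} (e : val hg u = val hg v) : u = v := Subtype.ext e

variable [IsManifold (𝓡 4) ∞ M]

/-- The operator `P`. -/
noncomputable def P (hg : GoodT g) : VS hg →ₗ[ℝ] VS hg where
  toFun u := mk hg (GP g (val hg u)) (smG_GP hg u.sm) (GP_symm hg u.sm u.symm)
  map_add' u v := ext (GP_add hg u.sm v.sm)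
  map_smul' c _ := ext (GP_smul g _ c)

theorem val_P (u : VS hg) : val hg (P hg u) = GP g (val hg u) := rfl

theorem val_pow (u : VS hg) (i : ℕ) : val hg ((P hg ^ i) u) = (GP g)^[i] (val hg u) := by
  induction i with
  | zero => rfl
  | succ i ih => rw [pow_succ', Module.End.mul_apply, val_P, ih, Function.iterate_succ_apply']

variable [CompactSpace M] [MeasurableSpace M] [BorelSpace M]

theorem int (u v : VS hg) : Integrable (ipg g (val hg u) (val hg v)) (volT g) :=
  hg.integrable (sm_ipg hg u.sm v.sm).continuous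

/-- The `L²` product. -/
@[reducible]
noncomputable def core (hg : GoodT g) : InnerProductSpace.Core ℝ (VS hg) where
  inner u v := ∫ x, ipg g (val hg u) (val hg v) x ∂volT g
  conj_inner_symm u v :=
    integral_congr_ae (.of_forall fun x => lin_ipM_comm (lin_symm (hg.pos x)) _ _)
  re_inner_nonneg u := integral_nonneg fun x => n0_nonneg hg _ x
  add_left u v w := by
    rw [← integral_add (int u w) (int v w)]
    exact integral_congr_ae (.of_forall fun x => lin_ipM_add_left _ _ _ _)
  smul_left u v c := by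
    rw [← integral_const_mul]
    exact integral_congr_ae (.of_forall fun x => lin_ipM_smul_left _ _ _ _)
  definite u e := ext (hg.eq_zero_of_n0 u.sm e)

noncomputable instance : NormedAddCommGroup (VS hg) := (core hg).toNormedAddCommGroup

noncomputable instance : InnerProductSpace ℝ (VS hg) :=
  InnerProductSpace.ofCore (core hg).toCore

theorem inner_eq (u v : VS hg) :
    ⟪u, v⟫_ℝ = ∫ x, ipg g (val hg u) (val hg v) x ∂volT g := rfl

theorem norm_sq (u : VS hg) : ‖u‖ ^ 2 = ∫ x, n0 g (val hg u) x ∂volT g :=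
  (real_inner_self_eq_norm_sq u).symm

variable [T2Space M]

theorem P_symm (u v : VS hg) : ⟪P hg u, v⟫_ℝ = ⟪u, P hg v⟫_ℝ := int_GP_symm hg u.sm v.sm

theorem exists_low (hg : GoodT g) : ∃ c : ℝ, ∀ u : VS hg, -c * ‖u‖ ^ 2 ≤ ⟪P hg u, u⟫_ℝ := by
  obtain ⟨c, hc⟩ := exists_lower hg
  exact ⟨c, fun u => by rw [norm_sq]; exact hc _ u.sm u.symm⟩

end VS

end Pool.Agent.Lib.MP_94aef8_gt
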